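import Pool.Agent.Helper50.UK.Flip

/-!
Definitions shared by the pieces J, V, SEL, partner, conversion.
-/

set_option autoImplicit false

namespace Pool.Agent.Helper50.UK
namespace Code

variable {n : ℕ} (S : Code n)

/-- `C` is a cycle mod 2: an even number of the four edges at every double point is in `C`. -/
def Bal (C : Set (ZMod (2 * n))) : Prop :=
  ∀ q, ((q - 1 ∈ C ↔ q ∈ C) ↔ (S.mate q - 1 ∈ C ↔ S.mate q ∈ C))

/-- Pairwise non-crossing double points (a set of passages). -/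
structure NonCross (V : Set (ZMod (2 * n))) : Prop where
  mc : S.MC V
  nc : ∀ a ∈ V, ∀ c ∈ V, c ≠ a → c ≠ S.mate a → (S.sd a c ↔ S.sd a (S.mate c))

/-- Maximal: every other double point crosses one of `V`. -/
def MaxNC (V : Set (ZMod (2 * n))) : Prop :=
  S.NonCross V ∧ ∀ c, c ∉ V → ∃ a ∈ V, ¬ (S.sd a c ↔ S.sd a (S.mate c))

/-- Same loop of the curve smoothed at `V`. -/
def Same (V : Set (ZMod (2 * n))) (e e' : ZMod (2 * n)) : Prop := ∀ a ∈ V, S.sd a e ↔ S.sd a e'

/-- The loop of `e`. -/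
def cls (V : Set (ZMod (2 * n))) (e : ZMod (2 * n)) : Set (ZMod (2 * n)) := {e' | S.Same V e e'}

/-- The double points of `V` which are smoothed when `X` is the active part. -/
def SmX (V X : Set (ZMod (2 * n))) : Set (ZMod (2 * n)) := {p | p ∈ V ∧ ¬ (p ∈ X ∧ p - 1 ∈ X)}

/-- Admissible active parts. -/
structure Valid (V X : Set (ZMod (2 * n))) : Prop where
  sat : ∀ e e', S.Same V e e' → e ∈ X → e' ∈ X
  side : ∀ p ∈ SmX V X, ∀ e ∈ X, ∀ e' ∈ X, (S.sd p e ↔ S.sd p e')

/-- The passages of `β` through crossings with `α`. -/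
def Crs (V α β : Set (ZMod (2 * n))) : Set (ZMod (2 * n)) := {q | q ∈ β ∧ q ∉ V ∧ S.mate q ∈ α}

end Code
end Pool.Agent.Helper50.UK
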