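import Pool.Agent.Helper50.UK.Sd

set_option autoImplicit false

namespace Pool.Agent.Helper50.UK
namespace Code

variable {n : ℕ} {S : Code n}

/-- Turning along two edges of `C`. -/
theorem IsSide.turn_mem {C : Set (ZMod (2 * n))} {f : ZMod (2 * n) × Bool → Bool}
    (hf : S.IsSide C f) {q : ZMod (2 * n)} (h1 : q - 1 ∈ C) (h2 : S.mate q ∈ C) (b : Bool) :
    f (S.mate q, b) = f (q - 1, b) := by
  have e1 := hf.not_of_mem h1 true
  have e2 := hf.not_of_mem h2 true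
  cases hq : S.toLeft q
  · obtain ⟨a1, a2, a3, a4⟩ := IsFace.false_eq S hf.face hq
    cases b <;> simp_all
  · obtain ⟨a1, a2, a3, a4⟩ := IsFace.true_eq S hf.face hq
    cases b <;> simp_all

/-- Corner: `q` and `mate q` are the edges of `C`. -/
theorem IsSide.corner_tt {C : Set (ZMod (2 * n))} {f : ZMod (2 * n) × Bool → Bool}
    (hf : S.IsSide C f) {q : ZMod (2 * n)} (h1 : q - 1 ∉ C) (h2 : q ∈ C) (h3 : S.mate q - 1 ∉ C)
    (h4 : S.mate q ∈ C) :
    f (S.mate q - 1, true) = f (q - 1, true) ∧ f (q, S.toLeft q) = !f (q - 1, true) ∧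
      f (S.mate q, !S.toLeft q) = !f (q - 1, true) := by
  have e1 := hf.eq_of_notMem h1 true false
  have e2 := hf.not_of_mem h2 true
  have e3 := hf.eq_of_notMem h3 true false
  have e4 := hf.not_of_mem h4 true
  cases hq : S.toLeft q
  · obtain ⟨a1, a2, a3, a4⟩ := IsFace.false_eq S hf.face hq
    simp_all
  · obtain ⟨a1, a2, a3, a4⟩ := IsFace.true_eq S hf.face hq
    simp_all

/-- Corner: `q` and `mate q - 1` are the edges of `C`. -/
theorem IsSide.corner_tf {C : Set (ZMod (2 * n))} {f : ZMod (2 * n) × Bool → Bool}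
    (hf : S.IsSide C f) {q : ZMod (2 * n)} (h1 : q - 1 ∉ C) (h2 : q ∈ C) (h3 : S.mate q - 1 ∈ C)
    (h4 : S.mate q ∉ C) :
    f (S.mate q, true) = f (q - 1, true) ∧ f (q, !S.toLeft q) = !f (q - 1, true) ∧
      f (S.mate q - 1, !S.toLeft q) = !f (q - 1, true) := by
  have e1 := hf.eq_of_notMem h1 true false
  have e2 := hf.not_of_mem h2 true
  have e3 := hf.not_of_mem h3 true
  have e4 := hf.eq_of_notMem h4 true false
  cases hq : S.toLeft q
  · obtain ⟨a1, a2, a3, a4⟩ := IsFace.false_eq S hf.face hq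
    simp_all
  · obtain ⟨a1, a2, a3, a4⟩ := IsFace.true_eq S hf.face hq
    simp_all

/-- Corner: `q - 1` and `mate q` are the edges of `C`. -/
theorem IsSide.corner_ft {C : Set (ZMod (2 * n))} {f : ZMod (2 * n) × Bool → Bool}
    (hf : S.IsSide C f) {q : ZMod (2 * n)} (h1 : q - 1 ∈ C) (h2 : q ∉ C) (h3 : S.mate q - 1 ∉ C)
    (h4 : S.mate q ∈ C) :
    f (S.mate q - 1, true) = f (q, true) ∧ f (q - 1, S.toLeft q) = !f (q, true) ∧
      f (S.mate q, S.toLeft q) = !f (q, true) := by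
  have e1 := hf.not_of_mem h1 true
  have e2 := hf.eq_of_notMem h2 true false
  have e3 := hf.eq_of_notMem h3 true false
  have e4 := hf.not_of_mem h4 true
  cases hq : S.toLeft q
  · obtain ⟨a1, a2, a3, a4⟩ := IsFace.false_eq S hf.face hq
    simp_all
  · obtain ⟨a1, a2, a3, a4⟩ := IsFace.true_eq S hf.face hq
    simp_all

/-- Corner: `q - 1` and `mate q - 1` are the edges of `C`. -/
theorem IsSide.corner_ff {C : Set (ZMod (2 * n))} {f : ZMod (2 * n) × Bool → Bool}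
    (hf : S.IsSide C f) {q : ZMod (2 * n)} (h1 : q - 1 ∈ C) (h2 : q ∉ C) (h3 : S.mate q - 1 ∈ C)
    (h4 : S.mate q ∉ C) :
    f (S.mate q, true) = f (q, true) ∧ f (q - 1, !S.toLeft q) = !f (q, true) ∧
      f (S.mate q - 1, S.toLeft q) = !f (q, true) := by
  have e1 := hf.not_of_mem h1 true
  have e2 := hf.eq_of_notMem h2 true false
  have e3 := hf.not_of_mem h3 true
  have e4 := hf.eq_of_notMem h4 true false
  cases hq : S.toLeft q
  · obtain ⟨a1, a2, a3, a4⟩ := IsFace.false_eq S hf.face hq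
    simp_all
  · obtain ⟨a1, a2, a3, a4⟩ := IsFace.true_eq S hf.face hq
    simp_all

/-! ### Paths -/

variable {V I : Set (ZMod (2 * n))} {i₀ i₁ : ZMod (2 * n)} {a : ℕ}

theorem IsPath.ne (h : S.IsPath V I i₀ i₁ a) : i₀ ≠ i₁ := by
  rw [← h.fin]; exact (h.inj a h.pos le_rfl).symm

/-- At a crossing, a path behaves like a cycle except at its two ends. -/
theorem IsPath.straight_iff (h : S.IsPath V I i₀ i₁ a) (hV : S.MC V) (hi₁ : i₁ ∉ I)
    {q : ZMod (2 * n)} (hq : q ∉ V) : (q - 1 ∈ I ↔ q ∈ I) ↔ (q ≠ i₀ ∧ q ≠ i₁) := by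
  have hn : S.nxt V (q - 1) = q := by
    rw [S.nxt_neg (by simpa using hq), sub_add_cancel]
  constructor
  · intro h1
    constructor
    · rintro rfl
      obtain ⟨l, hl, h2⟩ := (h.mem _).1 (h1.2 h.mem_zero)
      have h3 := h.inj (l + 1) (by omega) (by omega)
      rw [Function.iterate_succ_apply', ← h2, hn] at h3
      exact h3 rfl
    · rintro rfl
      exact hi₁ (h1.1 (h.last_mem hV))
  · rintro ⟨h1, h2⟩
    constructor
    · intro h3
      rcases h.succ h3 with h4 | h4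
      · rwa [hn] at h4
      · rw [hn] at h4; exact absurd h4 h2
    · intro h3
      exact h.pred hV (by rw [hn]; exact h3) (by rw [hn]; exact h1)

/-- At a smoothed double point a path turns. -/
theorem IsPath.turn_iff (h : S.IsPath V I i₀ i₁ a) (hV : S.MC V)
    {q : ZMod (2 * n)} (hq : q ∈ V) : q - 1 ∈ I ↔ S.mate q ∈ I := by
  have hn : S.nxt V (q - 1) = S.mate q := by
    rw [S.nxt_pos (by simpa using hq), sub_add_cancel]
  have hm : S.mate q ∈ V := (hV _).2 hq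
  constructor
  · intro h3
    rcases h.succ h3 with h4 | h4
    · rwa [hn] at h4
    · rw [hn] at h4; exact absurd hm (by rw [h4]; exact h.stop)
  · intro h3
    exact h.pred hV (by rw [hn]; exact h3) (by rw [hn]; intro h5; exact h.start (h5 ▸ hm))

/-- Two disjoint paths with the same two end vertices form a cycle. -/
theorem bal_union {B : Set (ZMod (2 * n))} {j₀ j₁ : ZMod (2 * n)} {b : ℕ}
    (hI : S.IsPath V I i₀ i₁ a) (hB : S.IsPath V B j₀ j₁ b) (hV : S.MC V) (hi₁ : i₁ ∉ I)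
    (hj₁ : j₁ ∉ B)
    (hmate : (S.mate j₀ = i₀ ∧ S.mate j₁ = i₁) ∨ (S.mate j₀ = i₁ ∧ S.mate j₁ = i₀))
    (hIB : ∀ q, q ∉ V → (q ∈ I ∨ q - 1 ∈ I) → q ∉ B ∧ q - 1 ∉ B ∧ q ≠ j₀ ∧ q ≠ j₁)
    (hBI : ∀ q, q ∉ V → (q ∈ B ∨ q - 1 ∈ B) → q ≠ i₀ ∧ q ≠ i₁) :
    S.Bal (I ∪ B) := by
  have hmi : (S.mate i₀ = j₀ ∧ S.mate i₁ = j₁) ∨ (S.mate i₀ = j₁ ∧ S.mate i₁ = j₀) := by
    rcases hmate with ⟨h1, h2⟩ | ⟨h1, h2⟩
    · left; rw [← h1, ← h2, S.mate_mate, S.mate_mate]; exact ⟨rfl, rfl⟩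
    · right; rw [← h1, ← h2, S.mate_mate, S.mate_mate]; exact ⟨rfl, rfl⟩
  -- for straight passages
  have key : ∀ q, q ∉ V → ((q - 1 ∈ I ∪ B ↔ q ∈ I ∪ B) ↔ (q ≠ i₀ ∧ q ≠ i₁ ∧ q ≠ j₀ ∧ q ≠ j₁)) := by
    intro q hq
    have h1 := hI.straight_iff hV hi₁ hq
    have h2 := hB.straight_iff hV hj₁ hq
    by_cases hc : q ∈ I ∨ q - 1 ∈ I
    · obtain ⟨a1, a2, a3, a4⟩ := hIB q hq hc
      simp only [Set.mem_union, a1, a2, or_false]
      rw [h1]
      tauto
    · push_neg at hc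
      simp only [Set.mem_union, hc.1, hc.2, false_or]
      rw [h2]
      have h3 : q ≠ i₀ ∧ q ≠ i₁ := h1.1 ⟨fun h => absurd h hc.2, fun h => absurd h hc.1⟩
      tauto
  intro q
  by_cases hq : q ∈ V
  · have hm : S.mate q ∈ V := (hV _).2 hq
    have h1 := hI.turn_iff hV hq
    have h2 := hB.turn_iff hV hq
    have h3 := hI.turn_iff hV hm
    have h4 := hB.turn_iff hV hm
    rw [S.mate_mate] at h3 h4
    simp only [Set.mem_union, h1, h2, h3, h4]
    tauto
  · have hm : S.mate q ∉ V := fun h => hq ((hV _).1 h)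
    rw [key q hq, key _ hm]
    have e1 : S.mate q = i₀ ↔ q = S.mate i₀ := S.mate_eq_iff
    have e2 : S.mate q = i₁ ↔ q = S.mate i₁ := S.mate_eq_iff
    have e3 : S.mate q = j₀ ↔ q = S.mate j₀ := S.mate_eq_iff
    have e4 : S.mate q = j₁ ↔ q = S.mate j₁ := S.mate_eq_iff
    rw [Ne, Ne, Ne, Ne, Ne, Ne, Ne, Ne, e1, e2, e3, e4]
    rcases hmate with ⟨h1, h2⟩ | ⟨h1, h2⟩ <;> rcases hmi with ⟨h3, h4⟩ | ⟨h3, h4⟩ <;>
      rw [h1, h2, h3, h4] <;> tauto

end Code
end Pool.Agent.Helper50.UK
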