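import Pool.Agent.Helper50.UK.Arc

set_option autoImplicit false

namespace Pool.Agent.Helper50.UK
namespace Code

variable {n : ℕ} {S : Code n} {V Sm₂ I : Set (ZMod (2 * n))} {i₀ i₁ : ZMod (2 * n)} {a : ℕ}

theorem iter_inj (hV : S.MC V) (k : ℕ) : Function.Injective ((S.nxt V)^[k]) :=
  Function.Injective.iterate (fun _ _ h => nxt_inj hV h) k

theorem exists_period [NeZero n] (hV : S.MC V) (x : ZMod (2 * n)) :
    ∃ L, 0 < L ∧ (S.nxt V)^[L] x = x := by
  haveI : NeZero (2 * n) := ⟨by have := NeZero.ne n; omega⟩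
  obtain ⟨i, j, hij, h⟩ := Finite.exists_ne_map_eq_of_infinite (fun l : ℕ => (S.nxt V)^[l] x)
  wlog hlt : i < j generalizing i j
  · exact this j i hij.symm h.symm (by omega)
  refine ⟨j - i, by omega, ?_⟩
  apply iter_inj hV i
  rw [← Function.iterate_add_apply, show i + (j - i) = j by omega]
  exact h.symm

/-- The set of the first `k` edges from `i₀`. -/
def pset (S : Code n) (V : Set (ZMod (2 * n))) (i₀ : ZMod (2 * n)) (k : ℕ) : Set (ZMod (2 * n)) :=
  {e | ∃ l < k, e = (S.nxt V)^[l] i₀}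

theorem isPath_pset {k : ℕ} (hk : 0 < k) (h0 : i₀ ∉ V) (h1 : (S.nxt V)^[k] i₀ ∉ V)
    (hinj : ∀ l, 0 < l → l ≤ k → (S.nxt V)^[l] i₀ ≠ i₀) :
    S.IsPath V (S.pset V i₀ k) i₀ ((S.nxt V)^[k] i₀) k :=
  ⟨hk, fun _ => Iff.rfl, rfl, hinj, h0, h1⟩

/-- A path for the smoothing `V` is a path for a smaller smoothing if the successors agree. -/
theorem IsPath.mono (h : S.IsPath V I i₀ i₁ a) (hsub : Sm₂ ⊆ V)
    (hn : ∀ e ∈ I, S.nxt Sm₂ e = S.nxt V e) : S.IsPath Sm₂ I i₀ i₁ a := by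
  have key : ∀ l, l ≤ a → (S.nxt Sm₂)^[l] i₀ = (S.nxt V)^[l] i₀ := by
    intro l hl
    induction l with
    | zero => rfl
    | succ l ih =>
      rw [Function.iterate_succ_apply', Function.iterate_succ_apply', ih (by omega)]
      exact hn _ ((h.mem _).2 ⟨l, by omega, rfl⟩)
  refine ⟨h.pos, fun e => ?_, ?_, fun l hl hl' => ?_, fun h1 => h.start (hsub h1),
    fun h1 => h.stop (hsub h1)⟩
  · rw [h.mem]
    constructor
    · rintro ⟨l, hl, rfl⟩; exact ⟨l, hl, (key l hl.le).symm⟩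
    · rintro ⟨l, hl, rfl⟩; exact ⟨l, hl, key l hl.le⟩
  · rw [key a le_rfl]; exact h.fin
  · rw [key l hl']; exact h.inj l hl hl'

theorem nxt_eq_of (hV : S.MC V) (hsub : Sm₂ ⊆ V) (hSm₂ : S.MC Sm₂) {α : Set (ZMod (2 * n))}
    {x e : ZMod (2 * n)} (hα : S.Closed V α) (hα₂ : ∀ q ∈ α, q ∈ V → q ≠ x → q ∈ Sm₂)
    (he : e ∈ α) (hne : S.nxt V e ≠ x) : S.nxt Sm₂ e = S.nxt V e := by
  have hm : S.nxt V e ∈ α := (hα e).2 he
  by_cases h : e + 1 ∈ V
  · rw [S.nxt_pos h] at hm hne ⊢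
    have h1 : S.mate (e + 1) ∈ Sm₂ := hα₂ _ hm ((hV _).2 h) hne
    rw [S.nxt_pos ((hSm₂ _).1 h1)]
  · rw [S.nxt_neg h, S.nxt_neg (fun h1 => h (hsub h1))]

/-- The side is constant along a path. -/
theorem IsPath.side_const (h : S.IsPath V I i₀ i₁ a) (hV : S.MC V) {C : Set (ZMod (2 * n))}
    {F : ZMod (2 * n) × Bool → Bool} (hF : S.IsSide C F)
    (hC : (∀ e ∈ I, e ∈ C) ∨ (∀ e ∈ I, e ∉ C))
    (hx : ∀ q, q ∉ V → q ∈ I → q ≠ i₀ → S.mate q ∉ C ∧ S.mate q - 1 ∉ C) :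
    ∀ e ∈ I, ∀ b, F (e, b) = F (i₀, b) := by
  intro e he b
  obtain ⟨l, hl, rfl⟩ := (h.mem e).1 he
  clear he
  induction l with
  | zero => rfl
  | succ l ih =>
    rw [← ih (by omega)]
    have hne := h.inj (l + 1) (by omega) (by omega)
    have hm : (S.nxt V)^[l + 1] i₀ ∈ I := (h.mem _).2 ⟨l + 1, hl, rfl⟩
    have hm0 : (S.nxt V)^[l] i₀ ∈ I := (h.mem _).2 ⟨l, by omega, rfl⟩
    rw [Function.iterate_succ_apply'] at hne hm ⊢
    set e := (S.nxt V)^[l] i₀ with hedef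
    by_cases hs : e + 1 ∈ V
    · rw [S.nxt_pos hs] at hm ⊢
      rcases hC with hC | hC
      · have := hF.turn_mem (q := e + 1) (by simpa using hC _ hm0) (hC _ hm) b
        simpa using this
      · have := hF.turn' (q := e + 1) (by simpa using hC _ hm0) (hC _ hm) b b
        simpa using this
    · rw [S.nxt_neg hs] at hne hm ⊢
      obtain ⟨h1, h2⟩ := hx _ hs hm hne
      have := hF.straight h1 h2 b
      simpa using this

/-! ### Crossings of two loops -/

section two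

variable {α β : Set (ZMod (2 * n))} {x y : ZMod (2 * n)} {f : ZMod (2 * n) × Bool → Bool}

theorem crs_pred (hβ : S.Closed V β) {q : ZMod (2 * n)} (hq : q ∈ S.Crs V α β) : q - 1 ∈ β :=
  (hβ.straight hq.2.1).1 hq.1

/-- The side changes at a crossing. -/
theorem side_crs (hβ : S.Closed V β) (hd : Disjoint α β) (hf : S.IsSide α f) {q : ZMod (2 * n)}
    (hq : q ∈ S.Crs V α β) (b b' : Bool) : f (q, b) = !f (q - 1, b') := by
  have h1 : q - 1 ∉ α := fun h => Set.disjoint_left.1 hd h (crs_pred hβ hq)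
  have h2 : q ∉ α := fun h => Set.disjoint_left.1 hd h hq.1
  rw [hf.before h1 b', hf.after h2 b, hf.not_of_mem hq.2.2 (S.toLeft q)]
  simp

/-- The side does not change elsewhere. -/
theorem side_nxt (hV : S.MC V) (hα : S.Closed V α) (hβ : S.Closed V β) (hd : Disjoint α β)
    (hf : S.IsSide α f) {e : ZMod (2 * n)} (he : e ∈ β) (hq : S.nxt V e ∉ S.Crs V α β)
    (b b' : Bool) : f (S.nxt V e, b) = f (e, b') := by
  have hm : S.nxt V e ∈ β := (hβ e).2 he
  have h0 : e ∉ α := fun h => Set.disjoint_left.1 hd h he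
  rw [hf.eq_of_notMem h0 b' b]
  by_cases hs : e + 1 ∈ V
  · rw [S.nxt_pos hs] at hm ⊢
    have h1 : S.mate (e + 1) ∉ α := fun h => Set.disjoint_left.1 hd h hm
    have := hf.turn' (q := e + 1) (by simpa using h0) h1 b b
    simpa using this
  · rw [S.nxt_neg hs] at hm hq ⊢
    have hs' : S.mate (e + 1) ∉ V := fun h => hs ((hV _).1 h)
    have h1 : S.mate (e + 1) ∉ α := fun h => hq ⟨hm, hs, h⟩
    have h2 : S.mate (e + 1) - 1 ∉ α := fun h => h1 ((hα.straight hs').2 h)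
    have := hf.straight h1 h2 b
    simpa using this

/-- The sign of an entrance. -/
theorem toLeft_of_entrance (hα : S.IsLoop V α x) (hV : S.MC V) (hd : Disjoint α β)
    (hf : S.IsSide α f) {q : ZMod (2 * n)} (hq : q ∈ S.Crs V α β) :
    S.toLeft q = !(f (x, true) == f (q, true)) := by
  have h2 : q ∉ α := fun h => Set.disjoint_left.1 hd h hq.1
  have h3 := hf.after h2 true
  have h4 := hα.left_const hV hf hq.2.2
  have h5 := hf.not_of_mem hq.2.2 true
  cases hl : S.toLeft q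
  · rw [hl] at h3
    simp only [Bool.not_false] at h3
    rw [h3, h4]; simp
  · rw [hl] at h3
    simp only [Bool.not_true] at h3
    rw [h3, ← h4, h5]; simp

end two

end Code
end Pool.Agent.Helper50.UK
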