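import Pool.Agent.Helper50.UK.Pair
import Pool.Agent.Helper10.UK.J
import Pool.Agent.Helper10.UK.Count
import Pool.Agent.Helper13.UK.Growth
import Pool.Agent.Helper19.UK.Sel
import Pool.Agent.Helper33.UK.W
import Pool.Agent.Helper47.UK.Partner
import Pool.Agent.Helper98.UK.Conv

set_option autoImplicit false

namespace Pool.Agent.Helper50.UK

variable {n : ℕ}

open Code

theorem pairFlip [NeZero n] (S : Shadow n) : S.toCode.PairFlip := by
  intro V Sm₂ Y α β x y ov f h1 h2 h3 h4 h5 h6 h7 h8 h9 h10 h11 h12 h13 h14 h15 h16 h17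
  exact S.toCode.pair_flip' (fun C hC a₀ b₀ => S.exists_side hC a₀ b₀) h1 h2 h3 h4 h5 h6 h7 h8 h9
    h10 h11 h12 h13 h14 h15 h16 h17

/-- Attaching passages. -/
theorem exists_attach [NeZero n] (S : Code n) {V : Set (ZMod (2 * n))} (hV : S.MaxNC V)
    {τ : ZMod (2 * n) → ℕ} (hτ1 : ∀ e e', S.Same V e e' → τ e = τ e')
    (hτ2 : ∀ e, 1 ≤ τ e → ∃ p ∈ V, (S.Same V p e ∧ τ (p - 1) < τ e) ∨
      (S.Same V (p - 1) e ∧ τ p < τ e)) (e : ZMod (2 * n)) (he : 1 ≤ τ e) :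
    ∃ x ∈ V, S.Same V x e ∧ τ (x - 1) < τ e := by
  obtain ⟨p, hp, ⟨h1, h2⟩ | ⟨h1, h2⟩⟩ := hτ2 e he
  · exact ⟨p, hp, h1, h2⟩
  · have hm : S.mate p ∈ V := (hV.1.mc p).2 hp
    refine ⟨S.mate p, hm, (S.same_turn hV.1 hp).trans h1, ?_⟩
    have h3 := S.same_turn hV.1 hm
    rw [S.mate_mate] at h3
    rw [← hτ1 _ _ h3]
    exact h2

/-- The data for the pair of loops inserted at time `t`. -/
structure PairData (S : Code n) (V : Set (ZMod (2 * n))) (τ : ZMod (2 * n) → ℕ) (t : ℕ)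
    (x y : ZMod (2 * n)) (f : ZMod (2 * n) × Bool → Bool)
    (ent : ZMod (2 * n) → ZMod (2 * n)) : Prop where
  hx : x ∈ V
  hy : y ∈ V
  tx : τ x = t
  ty : τ y = t
  ne : ¬ S.Same V x y
  att : (τ (x - 1) < t ∧ τ (y - 1) < t) ∨ (t = 0 ∧ y = S.mate x)
  side : S.IsSide (S.cls V x) f
  fy : f (y, true) = false
  bij : Set.BijOn ent {q | q ∈ S.Crs V (S.cls V x) (S.cls V y) ∧ f (q, true) = false}
        {q | q ∈ S.Crs V (S.cls V x) (S.cls V y) ∧ f (q, true) = true}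
  part : ∀ (q : ZMod (2 * n)) (l : ℕ), q ∈ S.Crs V (S.cls V x) (S.cls V y) →
      f (q, true) = true → 0 < l → (S.nxt V)^[l] q ∈ S.Crs V (S.cls V x) (S.cls V y) →
        (∀ l', 0 < l' → l' < l → (S.nxt V)^[l'] q ∉ S.Crs V (S.cls V x) (S.cls V y)) →
        ent ((S.nxt V)^[l] q) = q

theorem exists_pairData [NeZero n] (S : Shadow n) {V : Set (ZMod (2 * n))}
    (hV : S.toCode.MaxNC V)
    {τ : ZMod (2 * n) → ℕ} (hτ1 : ∀ e e', S.toCode.Same V e e' → τ e = τ e')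
    (hτ2 : ∀ e, 1 ≤ τ e → ∃ p ∈ V, (S.toCode.Same V p e ∧ τ (p - 1) < τ e) ∨
      (S.toCode.Same V (p - 1) e ∧ τ p < τ e))
    (hτ3 : ∀ e e', τ e = 0 → τ e' = 0 → ¬ S.toCode.Same V e e' →
        ∃ p ∈ V, (S.toCode.Same V (p - 1) e ∧ S.toCode.Same V p e') ∨
          (S.toCode.Same V (p - 1) e' ∧ S.toCode.Same V p e))
    {e e' : ZMod (2 * n)} (h : τ e = τ e') (hne : ¬ S.toCode.Same V e e') :
    ∃ x y f ent, PairData S.toCode V τ (τ e) x y f ent := by
  obtain ⟨x, y, hx, hy, tx, ty, hxy, att⟩ : ∃ x y : ZMod (2 * n), x ∈ V ∧ y ∈ V ∧ τ x = τ e ∧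
      τ y = τ e ∧ ¬ S.toCode.Same V x y ∧
      ((τ (x - 1) < τ e ∧ τ (y - 1) < τ e) ∨ (τ e = 0 ∧ y = S.mate x)) := by
    rcases Nat.eq_zero_or_pos (τ e) with h0 | h0
    · have key : ∀ a b : ZMod (2 * n), τ a = 0 → τ b = 0 → ¬ S.toCode.Same V a b →
          (∃ p ∈ V, S.toCode.Same V (p - 1) a ∧ S.toCode.Same V p b) →
          ∃ x y : ZMod (2 * n), x ∈ V ∧ y ∈ V ∧ τ x = τ e ∧ τ y = τ e ∧
            ¬ S.toCode.Same V x y ∧
            ((τ (x - 1) < τ e ∧ τ (y - 1) < τ e) ∨ (τ e = 0 ∧ y = S.mate x)) := by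
        rintro a b ha hb hab ⟨p, hp, h1, h2⟩
        have hm : S.mate p ∈ V := (hV.1.mc p).2 hp
        have h3 : S.toCode.Same V (S.mate p) a := (S.toCode.same_turn hV.1 hp).trans h1
        refine ⟨p, S.mate p, hp, hm, ?_, ?_, ?_, Or.inr ⟨h0, rfl⟩⟩
        · rw [hτ1 _ _ h2, hb, h0]
        · rw [hτ1 _ _ h3, ha, h0]
        · intro h4
          exact hab ((h3.symm.trans h4.symm).trans h2)
      obtain ⟨p, hp, hc | hc⟩ := hτ3 e e' h0 (by rw [← h, h0]) hne
      · exact key e e' h0 (by rw [← h, h0]) hne ⟨p, hp, hc⟩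
      · exact key e' e (by rw [← h, h0]) h0 (fun h5 => hne h5.symm) ⟨p, hp, hc⟩
    · obtain ⟨x, hx, h1, h2⟩ := exists_attach S.toCode hV hτ1 hτ2 e h0
      obtain ⟨y, hy, h3, h4⟩ := exists_attach S.toCode hV hτ1 hτ2 e' (by rw [← h]; exact h0)
      refine ⟨x, y, hx, hy, hτ1 _ _ h1, by rw [hτ1 _ _ h3, h], ?_, Or.inl ⟨h2, by rw [h]; exact h4⟩⟩
      intro h5
      exact hne ((h1.symm.trans h5).trans h3)
  obtain ⟨f, hf, hfy⟩ := S.exists_side (S.toCode.bal_cls hV x) (y, true) false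
  have hlx := S.toCode.isLoop_cls hV hx
  have hly := S.toCode.isLoop_cls hV hy
  obtain ⟨ent, h1, h2⟩ := exists_partner hV.1.mc hlx.closed hly (S.toCode.disj_cls hxy) hf hfy
  exact ⟨x, y, f, ent, hx, hy, tx, ty, hxy, att, hf, hfy, h1, h2⟩

/-- The main counting theorem. -/
theorem main_count [NeZero n] (S : Shadow n) {V₀ : Finset (Fin n)}
    (h₀ : S.toCode.MaxNonCrossing V₀) (hne₀ : V₀.Nonempty) :
    ∃ E : ℕ, 4 * V₀.card * E + V₀.card ≥ 4 * V₀.card ^ 2 + n ∧ 2 ^ E ≤ S.toCode.unknots := by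
  classical
  haveI : NeZero (2 * n) := ⟨by have := NeZero.ne n; omega⟩
  set V : Set (ZMod (2 * n)) := {q | (S.pass q).1 ∈ V₀} with hVdef
  have hV : S.toCode.MaxNC V := h₀.maxNC
  set Vf : Finset (ZMod (2 * n)) := Finset.univ.filter fun q => (S.pass q).1 ∈ V₀ with hVf
  have hmem : ∀ q, q ∈ Vf ↔ q ∈ V := by intro q; simp [hVf, hVdef]
  have hcard : Vf.card = 2 * V₀.card := S.toCode.card_filter_passages V₀
  have hVfne : Vf.Nonempty := by
    rw [← Finset.card_pos, hcard]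
    have := hne₀.card_pos
    omega
  obtain ⟨q₀, hq₀⟩ := hVfne
  let R : Setoid (ZMod (2 * n)) :=
    { r := S.toCode.Same V
      iseqv := ⟨fun _ _ _ => Iff.rfl, fun h => h.symm, fun h h' => h.trans h'⟩ }
  obtain ⟨τ, hτ1, hτ2, hτ3, hτ4, hτ5⟩ := selection (2 * n) Vf ⟨q₀, hq₀⟩
    (by rw [hcard]; exact even_two_mul _) R
    (fun z hz => S.toCode.same_straight hV.1 (fun h => hz ((hmem z).2 h)))
    (fun z hz => S.toCode.not_same_pred ((hmem z).1 hz)) S.toCode.mate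
    (fun z hz => S.toCode.not_same_mate hV z)
  have hτ1' : ∀ e e', S.toCode.Same V e e' → τ e = τ e' := hτ1
  have hτ2' : ∀ e, 1 ≤ τ e → ∃ p ∈ V, (S.toCode.Same V p e ∧ τ (p - 1) < τ e) ∨
      (S.toCode.Same V (p - 1) e ∧ τ p < τ e) := by
    intro e he
    obtain ⟨p, hp, h⟩ := hτ2 e he
    exact ⟨p, (hmem p).1 hp, h⟩
  have hτ3' : ∀ e e', τ e = 0 → τ e' = 0 → ¬ S.toCode.Same V e e' →
        ∃ p ∈ V, (S.toCode.Same V (p - 1) e ∧ S.toCode.Same V p e') ∨
          (S.toCode.Same V (p - 1) e' ∧ S.toCode.Same V p e) := by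
    intro e e' h1 h2 h3
    obtain ⟨p, hp, h⟩ := hτ3 e e' h1 h2 h3
    exact ⟨p, (hmem p).1 hp, h⟩
  have hτ4' : ∀ e e' e'', τ e = τ e' → τ e = τ e'' →
      S.toCode.Same V e e' ∨ S.toCode.Same V e e'' ∨ S.toCode.Same V e' e'' := hτ4
  -- choice of the data
  have hdata : ∀ t : ℕ, (∃ e e', τ e = t ∧ τ e' = t ∧ ¬ S.toCode.Same V e e') →
      ∃ x y f ent, PairData S.toCode V τ t x y f ent := by
    rintro t ⟨e, e', h1, h2, h3⟩
    have := exists_pairData S hV hτ1' hτ2' hτ3' (h1.trans h2.symm) h3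
    rwa [h1] at this
  choose! X Y f ent hD using hdata
  set T : ℕ → Prop := fun t => ∃ e e', τ e = t ∧ τ e' = t ∧ ¬ S.toCode.Same V e e' with hT
  set Ex : Finset (ZMod (2 * n)) := Finset.univ.filter fun q => T (τ q) ∧
    q ∈ S.toCode.Crs V (S.toCode.cls V (X (τ q))) (S.toCode.cls V (Y (τ q))) ∧
      f (τ q) (q, true) = false with hEx
  set En : Finset (ZMod (2 * n)) := Finset.univ.filter fun q => T (τ q) ∧
    q ∈ S.toCode.Crs V (S.toCode.cls V (X (τ q))) (S.toCode.cls V (Y (τ q))) ∧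
      f (τ q) (q, true) = true with hEn
  have memEx : ∀ q, q ∈ Ex ↔ T (τ q) ∧
    q ∈ S.toCode.Crs V (S.toCode.cls V (X (τ q))) (S.toCode.cls V (Y (τ q))) ∧
      f (τ q) (q, true) = false := by intro q; simp [hEx]
  have memEn : ∀ q, q ∈ En ↔ T (τ q) ∧
    q ∈ S.toCode.Crs V (S.toCode.cls V (X (τ q))) (S.toCode.cls V (Y (τ q))) ∧
      f (τ q) (q, true) = true := by intro q; simp [hEn]
  have hEE : ∀ q, (q ∈ Ex ∨ q ∈ En) ↔ T (τ q) ∧
      q ∈ S.toCode.Crs V (S.toCode.cls V (X (τ q))) (S.toCode.cls V (Y (τ q))) := by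
    intro q
    rw [memEx, memEn]
    cases f (τ q) (q, true) <;> simp
  -- times of crossings
  have htau : ∀ t, T t → ∀ q ∈ S.toCode.Crs V (S.toCode.cls V (X t)) (S.toCode.cls V (Y t)),
      τ q = t ∧ τ (S.mate q) = t := by
    intro t ht q hq
    have h1 : S.toCode.Same V (Y t) q := hq.1
    have h2 : S.toCode.Same V (X t) (S.mate q) := hq.2.2
    exact ⟨by rw [← hτ1' _ _ h1, (hD t ht).ty], by rw [← hτ1' _ _ h2, (hD t ht).tx]⟩
  have hbij : Set.BijOn (fun q => ent (τ q) q) Ex En := by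
    refine ⟨?_, ?_, ?_⟩
    · intro q hq
      rw [Finset.mem_coe, memEx] at hq
      obtain ⟨ht, hc, hf⟩ := hq
      have h1 := (hD _ ht).bij.mapsTo ⟨hc, hf⟩
      have h2 := (htau _ ht _ h1.1).1
      show ent (τ q) q ∈ (En : Set _)
      rw [Finset.mem_coe, memEn, h2]
      exact ⟨ht, h1.1, h1.2⟩
    · intro q hq q' hq' h
      rw [Finset.mem_coe, memEx] at hq hq'
      have h1 := (hD _ hq.1).bij.mapsTo ⟨hq.2.1, hq.2.2⟩
      have h2 := (htau _ hq.1 _ h1.1).1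
      have h3 := (hD _ hq'.1).bij.mapsTo ⟨hq'.2.1, hq'.2.2⟩
      have h4 := (htau _ hq'.1 _ h3.1).1
      have h5 : ent (τ q) q = ent (τ q') q' := h
      have h6 : τ q = τ q' := by rw [← h2, h5, h4]
      refine (hD _ hq.1).bij.injOn ⟨hq.2.1, hq.2.2⟩ ⟨?_, ?_⟩ ?_
      · rw [h6]; exact hq'.2.1
      · rw [h6]; exact hq'.2.2
      · rw [h5, h6]
    · intro r hr
      rw [Finset.mem_coe, memEn] at hr
      obtain ⟨q, ⟨h1, h2⟩, h3⟩ := (hD _ hr.1).bij.surjOn ⟨hr.2.1, hr.2.2⟩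
      have h4 := (htau _ hr.1 _ h1).1
      refine ⟨q, ?_, ?_⟩
      · rw [Finset.mem_coe, memEx, h4]
        exact ⟨hr.1, h1, h2⟩
      · show ent (τ q) q = r
        rw [h4]; exact h3
  have hdis : Disjoint Ex En := by
    rw [Finset.disjoint_left]
    intro q h1 h2
    rw [memEx] at h1
    rw [memEn] at h2
    rw [h1.2.2] at h2
    exact absurd h2.2.2 (by simp)
  obtain ⟨E, hE1, hE2⟩ := count_family S.toCode Vf Ex En (fun q => ent (τ q) q) τ
    (fun q => by rw [hmem, hmem]; exact hV.1.mc q) hbij hdis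
    (fun q hq => by
      rw [hmem]
      exact ((hEE q).1 hq).2.2.1)
    (fun q hq hm => by
      obtain ⟨ht, hc⟩ := (hEE q).1 hq
      obtain ⟨ht', hc'⟩ := (hEE _).1 hm
      have h1 := (htau _ ht _ hc).2
      rw [h1] at hc'
      have h2 : S.toCode.Same V (Y (τ q)) (S.mate q) := hc'.1
      have h3 : S.toCode.Same V (X (τ q)) (S.mate q) := hc.2.2
      exact (hD _ ht).ne (h3.trans h2.symm))
    (fun q => by
      rw [hEE, hEE, hmem]
      constructor
      · rintro ⟨hqV, hq⟩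
        have hnm := S.toCode.not_same_mate hV q
        have ht : T (τ q) := ⟨q, S.mate q, rfl, hq.symm, hnm⟩
        have hd := hD _ ht
        have hqm : S.mate q ∉ V := fun h => hqV ((hV.1.mc q).1 h)
        have h1 := hτ4' (X (τ q)) (Y (τ q)) q (hd.tx.trans hd.ty.symm) hd.tx
        have h2 := hτ4' (X (τ q)) (Y (τ q)) (S.mate q) (hd.tx.trans hd.ty.symm)
          (hd.tx.trans hq)
        rcases h1 with h1 | h1 | h1
        · exact absurd h1 hd.ne
        · rcases h2 with h2 | h2 | h2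
          · exact absurd h2 hd.ne
          · exact absurd (h1.symm.trans h2) hnm
          · right
            rw [← hq]
            exact ⟨ht, h2, hqm, by
              show S.toCode.Same V (X (τ q)) (S.mate (S.mate q))
              rw [S.mate_mate]; exact h1⟩
        · rcases h2 with h2 | h2 | h2
          · exact absurd h2 hd.ne
          · left
            exact ⟨ht, h1, hqV, h2⟩
          · exact absurd (h1.symm.trans h2) hnm
      · rintro (⟨ht, hc⟩ | ⟨ht, hc⟩)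
        · exact ⟨hc.2.1, (htau _ ht _ hc).2.symm⟩
        · have h1 := (htau _ ht _ hc).2
          rw [S.mate_mate] at h1
          exact ⟨fun h => hc.2.1 ((hV.1.mc q).2 h), h1⟩)
    (fun D => S.toCode.IsUnknot D)
    (fun D h1 h2 => by
      refine isUnknot_of_good S D (fun c hc => S.exists_label c hc) ?_
      refine growth S hV ⟨q₀, (hmem _).1 hq₀⟩ (pairFlip S) (fun C hC a₀ b₀ => S.exists_side hC a₀ b₀)
        hτ1' hτ2' hτ4' (S.toCode.isOver_mate D)
        (fun q hq => h1 q (fun h => hq ((hmem q).1 h))) ?_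
      intro e e' h3 h4
      have ht : T (τ e) := ⟨e, e', rfl, h3.symm, h4⟩
      have hd := hD _ ht
      refine ⟨X (τ e), hd.hx, Y (τ e), hd.hy, hd.tx, hd.ty, hd.ne, hd.att, f (τ e), hd.side,
        hd.fy, ?_⟩
      intro q l hq hf hl hq' hfree
      have h5 := hd.part q l hq hf hl hq' hfree
      have hlx := S.toCode.isLoop_cls hV hd.hx
      have hly := S.toCode.isLoop_cls hV hd.hy
      have harc : S.toCode.IsArc V (S.toCode.cls V (X (τ e))) (S.toCode.cls V (Y (τ e))) q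
          ((S.nxt V)^[l] q) l := ⟨hq, hl, rfl, hq', hfree⟩
      have h6 := harc.side_stop hV.1.mc hlx.closed hly.closed (S.toCode.disj_cls hd.ne) hd.side
        true true
      rw [hf] at h6
      have h7 := (htau _ ht _ hq').1
      have h8 : (S.nxt V)^[l] q ∈ Ex := by
        rw [memEx, h7]
        exact ⟨ht, hq', by rw [h6]; rfl⟩
      have h9 := h2 _ h8
      rw [h9]
      show S.toCode.isOver D (ent (τ ((S.nxt V)^[l] q)) ((S.nxt V)^[l] q)) = _
      rw [h7, h5])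
  refine ⟨E, ?_, hE2⟩
  rw [hcard] at hτ5 hE1
  set w := (Finset.univ.filter fun q => q ∉ Vf ∧ τ q = τ (S.mate q)).card with hw
  have hkn : V₀.card ≤ n := by
    have := Finset.card_le_univ V₀
    simpa using this
  have h1 : 2 * n ≤ 2 * V₀.card * w + 2 * V₀.card := by omega
  have h2 : 4 * V₀.card * E = V₀.card * (2 * (2 * V₀.card) + w) := by
    rw [← hE1]; ring
  rw [h2]
  nlinarith [h1]

end Pool.Agent.Helper50.UK
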