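import Pool.Agent.Helper50.UK.Defs

set_option autoImplicit false

namespace Pool.Agent.Helper50.UK
namespace Code

variable {n : ℕ} (S : Code n)

theorem mate_mate (q : ZMod (2 * n)) : S.mate (S.mate q) = q := by
  simp [mate]

theorem mate_ne (q : ZMod (2 * n)) : S.mate q ≠ q := by
  intro h
  have h2 := congrArg S.pass h
  simp only [mate, Equiv.apply_symm_apply] at h2
  have h3 := congrArg Prod.snd h2
  simp at h3

theorem mate_inj {a b : ZMod (2 * n)} (h : S.mate a = S.mate b) : a = b := by
  rw [← S.mate_mate a, h, S.mate_mate]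

theorem mate_eq_iff {a b : ZMod (2 * n)} : S.mate a = b ↔ a = S.mate b := by
  constructor
  · rintro rfl; rw [S.mate_mate]
  · rintro rfl; rw [S.mate_mate]

theorem pass_mate (q : ZMod (2 * n)) : S.pass (S.mate q) = ((S.pass q).1, !(S.pass q).2) := by
  simp [mate]

theorem toLeft_mate (q : ZMod (2 * n)) : S.toLeft (S.mate q) = !S.toLeft q := by
  simp only [toLeft, pass_mate]
  cases S.left (S.pass q).1 <;> cases (S.pass q).2 <;> rfl

theorem isOver_mate (D : Fin n → Bool) (q : ZMod (2 * n)) :
    S.isOver D (S.mate q) = !S.isOver D q := by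
  simp only [isOver, pass_mate]
  cases D (S.pass q).1 <;> cases (S.pass q).2 <;> rfl

/-- A function on the sides of the edges which is constant on faces. -/
def IsFace {A : Type*} (f : ZMod (2 * n) × Bool → A) : Prop := ∀ a, f (S.faceStep a) = f a

/-- The four equalities at a passage with `toLeft`. -/
theorem IsFace.true_eq {A : Type*} {f : ZMod (2 * n) × Bool → A} (hf : S.IsFace f)
    {q : ZMod (2 * n)} (hq : S.toLeft q = true) :
    f (q - 1, true) = f (S.mate q, true) ∧ f (q, true) = f (S.mate q, false) ∧
      f (q - 1, false) = f (S.mate q - 1, true) ∧ f (q, false) = f (S.mate q - 1, false) := by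
  have hm : S.toLeft (S.mate q) = false := by rw [S.toLeft_mate, hq]; rfl
  have h1 := hf (q - 1, true)
  have h2 := hf (S.mate q, false)
  have h3 := hf (S.mate q - 1, true)
  have h4 := hf (q, false)
  simp only [faceStep, sub_add_cancel, hq, hm, S.mate_mate, if_true] at h1 h2 h3 h4
  simp at h1 h2 h3 h4
  exact ⟨h1.symm, h2, h3, h4.symm⟩

theorem IsFace.false_eq {A : Type*} {f : ZMod (2 * n) × Bool → A} (hf : S.IsFace f)
    {q : ZMod (2 * n)} (hq : S.toLeft q = false) :
    f (S.mate q - 1, true) = f (q, true) ∧ f (S.mate q, true) = f (q, false) ∧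
      f (S.mate q - 1, false) = f (q - 1, true) ∧ f (S.mate q, false) = f (q - 1, false) := by
  have hm : S.toLeft (S.mate q) = true := by rw [S.toLeft_mate, hq]; rfl
  have h := IsFace.true_eq S hf hm
  rw [S.mate_mate] at h
  exact h

/-- The colour of an edge given by labels of the faces. -/
def col {G : Type*} [Group G] (r : ZMod (2 * n) × Bool → G) (e : ZMod (2 * n)) : G :=
  (r (e, false))⁻¹ * r (e, true)

/-- The under relation follows from the over relation. -/
theorem col_under {G : Type*} [Group G] {r : ZMod (2 * n) × Bool → G} (hr : S.IsFace r)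
    {q : ZMod (2 * n)} (h : col r (S.mate q) = col r (S.mate q - 1)) :
    col r q = if S.toLeft q then col r (S.mate q) * col r (q - 1) * (col r (S.mate q))⁻¹
      else (col r (S.mate q))⁻¹ * col r (q - 1) * col r (S.mate q) := by
  simp only [col] at *
  by_cases hq : S.toLeft q = true
  · obtain ⟨h1, h2, h3, h4⟩ := IsFace.true_eq S hr hq
    rw [if_pos hq, h1, h2, h3, h4]
    have h5 : (r (S.mate q, false))⁻¹ * r (S.mate q, true)
        = (r (S.mate q - 1, false))⁻¹ * r (S.mate q - 1, true) := h
    rw [show ((r (S.mate q, false))⁻¹ * r (S.mate q, true))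
      * ((r (S.mate q - 1, true))⁻¹ * r (S.mate q, true))
      * ((r (S.mate q, false))⁻¹ * r (S.mate q, true))⁻¹
      = ((r (S.mate q, false))⁻¹ * r (S.mate q, true)) * (r (S.mate q - 1, true))⁻¹
        * r (S.mate q, false) by group, h5]
    group
  · have hq' : S.toLeft q = false := by simpa using hq
    obtain ⟨h1, h2, h3, h4⟩ := IsFace.false_eq S hr hq'
    rw [if_neg hq, ← h1, ← h2, ← h3, ← h4]
    have h5 : (r (S.mate q, false))⁻¹ * r (S.mate q, true)
        = (r (S.mate q - 1, false))⁻¹ * r (S.mate q - 1, true) := h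
    rw [show ((r (S.mate q, false))⁻¹ * r (S.mate q, true))⁻¹
      * ((r (S.mate q, false))⁻¹ * r (S.mate q - 1, false))
      * ((r (S.mate q, false))⁻¹ * r (S.mate q, true))
      = ((r (S.mate q, true))⁻¹ * r (S.mate q - 1, false))
        * ((r (S.mate q, false))⁻¹ * r (S.mate q, true)) by group, h5]
    group

end Code
end Pool.Agent.Helper50.UK
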