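import Mathlib

/-!
# Knot shadows, diagrams, Wirtinger groups

A closed curve in the plane with `n` transverse double points is encoded by its signed Gauss code:
the `2 n` passages through double points are numbered by `ZMod (2 * n)` in the order of traversal.
-/

set_option autoImplicit false

namespace Pool.Agent.Helper50.UK

/-- A signed Gauss code with `n` double points. `pass q = (v, b)` says that the `q`-th passage goes
through the double point `v` and is its passage number `b` (each double point has two passages,
`(v, true)` and `(v, false)`). `left v = b` says: seen from the passage `(v, b)` the other branch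
crosses from right to left (so, seen from `(v, !b)`, the other branch crosses from left to right). -/
structure Code (n : ℕ) where
  pass : ZMod (2 * n) ≃ Fin n × Bool
  left : Fin n → Bool

namespace Code

variable {n : ℕ} (S : Code n)

/-- The other passage through the same double point. -/
def mate (q : ZMod (2 * n)) : ZMod (2 * n) := S.pass.symm ((S.pass q).1, !(S.pass q).2)

/-- `toLeft q`: seen from the passage `q`, the other branch crosses from right to left. -/
def toLeft (q : ZMod (2 * n)) : Bool := S.left (S.pass q).1 == (S.pass q).2

/-- The edge `e` of the curve runs from passage `e` to passage `e + 1`; `(e, true)` is its left side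
and `(e, false)` its right side. `faceStep` goes from a side to the next side of the same face. -/
def faceStep : ZMod (2 * n) × Bool → ZMod (2 * n) × Bool
  | (e, true) => if S.toLeft (e + 1) then (S.mate (e + 1), true) else (S.mate (e + 1) - 1, false)
  | (e, false) => if S.toLeft e then (S.mate e - 1, false) else (S.mate e, true)

/-- The number of faces. -/
noncomputable def faces : ℕ := Nat.card (Quot fun a b => b = S.faceStep a)

/-- In the diagram `D` (for each double point `v`, the passage `(v, D v)` is the over one),
is the passage `q` over? -/
def isOver (D : Fin n → Bool) (q : ZMod (2 * n)) : Bool := D (S.pass q).1 == (S.pass q).2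

/-- The Wirtinger relators of the diagram `D`: one generator for each edge, one relator for each
passage. -/
def wirtinger (D : Fin n → Bool) : Set (FreeGroup (ZMod (2 * n))) :=
  {w | ∃ q : ZMod (2 * n), w =
    if S.isOver D q then FreeGroup.of q * (FreeGroup.of (q - 1))⁻¹
    else if S.toLeft q then
      FreeGroup.of q *
        (FreeGroup.of (S.mate q) * FreeGroup.of (q - 1) * (FreeGroup.of (S.mate q))⁻¹)⁻¹
    else
      FreeGroup.of q *
        ((FreeGroup.of (S.mate q))⁻¹ * FreeGroup.of (q - 1) * FreeGroup.of (S.mate q))⁻¹}

/-- The knot group of the diagram `D`. -/
abbrev knotGroup (D : Fin n → Bool) : Type := PresentedGroup (S.wirtinger D)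

/-- The diagram `D` represents the unknot: its knot group is infinite cyclic. -/
def IsUnknot (D : Fin n → Bool) : Prop := Nonempty (S.knotGroup D ≃* Multiplicative ℤ)

/-- The number of unknot diagrams. -/
noncomputable def unknots : ℕ := Nat.card {D : Fin n → Bool // S.IsUnknot D}

/-- Going forward along the curve from passage `a` to the other passage through the same double
point, passage `z` is met (`a` included, the other passage excluded). -/
def sd (a z : ZMod (2 * n)) : Prop := (z - a).val < (S.mate a - a).val

/-- The double points `v` and `w` cross (are interlaced): going from one passage through `v` to the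
other one, exactly one of the two passages through `w` is met. -/
def Cross (v w : Fin n) : Prop :=
  ¬ (S.sd (S.pass.symm (v, true)) (S.pass.symm (w, true)) ↔
    S.sd (S.pass.symm (v, true)) (S.pass.symm (w, false)))

/-- A maximal set of pairwise non-crossing double points. -/
structure MaxNonCrossing (V : Finset (Fin n)) : Prop where
  nonCrossing : ∀ v ∈ V, ∀ w ∈ V, v ≠ w → ¬ S.Cross v w
  maximal : ∀ w, w ∉ V → ∃ v ∈ V, S.Cross v w

end Code

/-- A knot shadow with `n` double points: a signed Gauss code of genus zero, that is with
`n - 2 n + (number of faces) = 2`. -/
structure Shadow (n : ℕ) extends Code n where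
  planar : toCode.faces = n + 2

end Pool.Agent.Helper50.UK
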