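import Pool.Agent.Helper50.UK.Top

set_option autoImplicit false

namespace Pool.Agent.Helper50.UK
namespace Code

variable {n : ℕ} {S : Code n}

/-- `I` is the path of edges from `i₀` up to (not including) `i₁` in the curve smoothed at `Sm`;
both ends are crossings. -/
structure IsPath (S : Code n) (Sm I : Set (ZMod (2 * n))) (i₀ i₁ : ZMod (2 * n)) (a : ℕ) : Prop where
  pos : 0 < a
  mem : ∀ e, e ∈ I ↔ ∃ l < a, e = (S.nxt Sm)^[l] i₀
  fin : (S.nxt Sm)^[a] i₀ = i₁
  inj : ∀ l, 0 < l → l ≤ a → (S.nxt Sm)^[l] i₀ ≠ i₀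
  start : i₀ ∉ Sm
  stop : i₁ ∉ Sm

variable {Sm I : Set (ZMod (2 * n))} {i₀ i₁ : ZMod (2 * n)} {a : ℕ}

theorem IsPath.mem_zero (h : S.IsPath Sm I i₀ i₁ a) : i₀ ∈ I := (h.mem _).2 ⟨0, h.pos, rfl⟩

/-- the last edge -/
theorem IsPath.last_mem (h : S.IsPath Sm I i₀ i₁ a) (hSm : S.MC Sm) : i₁ - 1 ∈ I := by
  obtain ⟨k, rfl⟩ : ∃ k, a = k + 1 := ⟨a - 1, by have := h.pos; omega⟩
  have h1 := h.fin
  rw [Function.iterate_succ_apply'] at h1
  by_cases hs : (S.nxt Sm)^[k] i₀ + 1 ∈ Sm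
  · rw [S.nxt_pos hs] at h1
    exact absurd ((hSm _).2 hs) (by rw [h1]; exact h.stop)
  · rw [S.nxt_neg hs] at h1
    rw [← h1, add_sub_cancel_right]
    exact (h.mem _).2 ⟨k, by omega, rfl⟩

/-- The successor of an edge of the path is in the path or is the end. -/
theorem IsPath.succ (h : S.IsPath Sm I i₀ i₁ a) {e : ZMod (2 * n)} (he : e ∈ I) :
    S.nxt Sm e ∈ I ∨ S.nxt Sm e = i₁ := by
  obtain ⟨l, hl, rfl⟩ := (h.mem e).1 he
  rw [← Function.iterate_succ_apply' (S.nxt Sm) l i₀]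
  by_cases h1 : l + 1 < a
  · exact Or.inl ((h.mem _).2 ⟨l + 1, h1, rfl⟩)
  · right
    rw [show l.succ = a by omega]; exact h.fin

theorem nxt_inj (hSm : S.MC Sm) {e e' : ZMod (2 * n)} (h : S.nxt Sm e = S.nxt Sm e') : e = e' := by
  by_cases h1 : e + 1 ∈ Sm <;> by_cases h2 : e' + 1 ∈ Sm
  · rw [S.nxt_pos h1, S.nxt_pos h2] at h
    exact add_right_cancel (S.mate_inj h)
  · rw [S.nxt_pos h1, S.nxt_neg h2] at h
    exact absurd ((hSm _).2 h1) (by rw [h]; exact h2)
  · rw [S.nxt_neg h1, S.nxt_pos h2] at h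
    exact absurd ((hSm _).2 h2) (by rw [← h]; exact h1)
  · rw [S.nxt_neg h1, S.nxt_neg h2] at h
    exact add_right_cancel h

/-- The predecessor of an edge of the path, unless it is the first one, is in the path. -/
theorem IsPath.pred (h : S.IsPath Sm I i₀ i₁ a) (hSm : S.MC Sm) {e : ZMod (2 * n)}
    (he : S.nxt Sm e ∈ I) (hne : S.nxt Sm e ≠ i₀) : e ∈ I := by
  obtain ⟨l, hl, h1⟩ := (h.mem _).1 he
  rcases Nat.eq_zero_or_pos l with rfl | hpos
  · exact absurd h1 hne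
  · obtain ⟨k, rfl⟩ : ∃ k, l = k + 1 := ⟨l - 1, by omega⟩
    rw [Function.iterate_succ_apply'] at h1
    rw [nxt_inj hSm h1]
    exact (h.mem _).2 ⟨k, by omega, rfl⟩

/-- A colour is constant along a path whose interior crossings are over crossings (or crossings
with trivial strands). -/
theorem IsPath.const (h : S.IsPath Sm I i₀ i₁ a) (hSm : S.MC Sm) {Y : Set (ZMod (2 * n))}
    {G : Type} [Group G] {r : ZMod (2 * n) × Bool → G} {ov : ZMod (2 * n) → Bool}
    (hY : S.Closed Sm Y) (hr : S.IsLab Sm Y ov r) (hIY : I ⊆ Y)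
    (hov : ∀ q, q ∉ Sm → q ∈ I → q ≠ i₀ → S.mate q ∈ Y → ov q = true) {e : ZMod (2 * n)}
    (he : e ∈ I) : col r e = col r i₀ := by
  obtain ⟨l, hl, rfl⟩ := (h.mem e).1 he
  clear he
  induction l with
  | zero => rfl
  | succ l ih =>
    have h0 := ih (by omega)
    rw [← h0]
    have hne := h.inj (l + 1) (by omega) (by omega)
    have hm : (S.nxt Sm)^[l + 1] i₀ ∈ I := (h.mem _).2 ⟨l + 1, hl, rfl⟩
    rw [Function.iterate_succ_apply'] at hne hm ⊢
    set e := (S.nxt Sm)^[l] i₀ with hedef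
    by_cases hs : e + 1 ∈ Sm
    · have := hr.smooth _ hs
      rw [S.nxt_pos hs]
      simpa using this
    · rw [S.nxt_neg hs] at hne hm ⊢
      have hs' : S.mate (e + 1) ∉ Sm := fun h3 => hs ((hSm _).1 h3)
      by_cases h3 : S.mate (e + 1) ∈ Y
      · have := hr.cross _ hs (hIY hm) h3 (hov _ hs hm hne h3)
        simpa using this
      · have h4 : S.mate (e + 1) - 1 ∉ Y := fun h4 => h3 ((hY.straight hs').2 h4)
        have := S.col_straight_of_one hr.face (q := e + 1) (hr.off _ h3) (hr.off _ h4)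
        simpa using this

/-- **Bigon flip.** Two over-paths `I` and `B` with common ends, `f` the inside of the bigon. -/
theorem bigon_flip {Y B : Set (ZMod (2 * n))} {j₀ j₁ : ZMod (2 * n)} {b : ℕ}
    {ov ov' : ZMod (2 * n) → Bool} (hSm : S.MC Sm) (hY : S.Closed Sm Y)
    (hI : S.IsPath Sm I i₀ i₁ a) (hB : S.IsPath Sm B j₀ j₁ b) (hIY : I ⊆ Y) (hBY : B ⊆ Y)
    (hmate : (S.mate j₀ = i₀ ∧ S.mate j₁ = i₁) ∨ (S.mate j₀ = i₁ ∧ S.mate j₁ = i₀))
    (hsgn : S.toLeft j₁ = !S.toLeft j₀)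
    (hi₁ : i₁ ∉ I ∪ B) (hj₁ : j₁ ∉ I ∪ B) (hi₀ : i₀ - 1 ∉ I ∪ B)
    {f : ZMod (2 * n) × Bool → Bool} (hf : S.IsSide (I ∪ B) f) {lI lB : Bool}
    (hfI : ∀ e, e ∈ I → f (e, lI) = true) (hfB : ∀ e, e ∈ B → f (e, lB) = true)
    (hf0 : f (i₀ - 1, true) = false) (hf1 : f (i₁, true) = false) (hf2 : f (j₁, true) = false)
    (hovI : ∀ q, q ∉ Sm → q ∈ I → q ≠ i₀ → S.mate q ∈ Y → ov q = true)
    (hovB : ∀ q, q ∉ Sm → q ∈ B → q ≠ j₀ → S.mate q ∈ Y → ov q = true)
    (hov : ∀ q, ov (S.mate q) = !ov q) (hov' : ∀ q, ov' (S.mate q) = !ov' q)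
    (hc0 : ov j₀ = false) (hc1 : ov j₁ = false) (hc0' : ov' j₀ = true) (hc1' : ov' j₁ = true)
    (hsame : ∀ q, q ≠ i₀ → q ≠ i₁ → q ≠ j₀ → q ≠ j₁ → ov' q = ov q)
    (hg : S.Good Sm Y ov) : S.Good Sm Y ov' := by
  intro G _ r hr
  -- basic memberships
  have hi₀Y : i₀ ∈ Y := hIY hI.mem_zero
  have hj₀Y : j₀ ∈ Y := hBY hB.mem_zero
  have hi₁Y : i₁ ∈ Y := (hY.straight hI.stop).2 (hIY (hI.last_mem hSm))
  have hj₁Y : j₁ ∈ Y := (hY.straight hB.stop).2 (hBY (hB.last_mem hSm))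
  have hi₀Y' : i₀ - 1 ∈ Y := (hY.straight hI.start).1 hi₀Y
  have hi₁I : i₁ ∉ I := fun h => hi₁ (Or.inl h)
  have hi₁B : i₁ ∉ B := fun h => hi₁ (Or.inr h)
  have hj₁I : j₁ ∉ I := fun h => hj₁ (Or.inl h)
  have hj₁B : j₁ ∉ B := fun h => hj₁ (Or.inr h)
  have hmi : (S.mate i₀ = j₀ ∧ S.mate i₁ = j₁) ∨ (S.mate i₀ = j₁ ∧ S.mate i₁ = j₀) := by
    rcases hmate with ⟨h1, h2⟩ | ⟨h1, h2⟩
    · left; rw [← h1, ← h2, S.mate_mate, S.mate_mate]; exact ⟨rfl, rfl⟩
    · right; rw [← h1, ← h2, S.mate_mate, S.mate_mate]; exact ⟨rfl, rfl⟩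
  have hci0 : ov i₀ = true := by
    have := hov i₀
    rcases hmi with ⟨h1, _⟩ | ⟨h1, _⟩ <;> rw [h1] at this <;> simp_all
  have hci1 : ov i₁ = true := by
    have := hov i₁
    rcases hmi with ⟨_, h1⟩ | ⟨_, h1⟩ <;> rw [h1] at this <;> simp_all
  have hci0' : ov' i₀ = false := by
    have := hov' i₀
    rcases hmi with ⟨h1, _⟩ | ⟨h1, _⟩ <;> rw [h1] at this <;> simp_all
  have hci1' : ov' i₁ = false := by
    have := hov' i₁
    rcases hmi with ⟨_, h1⟩ | ⟨_, h1⟩ <;> rw [h1] at this <;> simp_all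
  have hi₀B : i₀ ∉ B := by
    intro h
    by_cases h1 : i₀ = j₀
    · rw [h1, hc0] at hci0; cases hci0
    · have h2 : i₀ - 1 ∈ B := by
        have h3 : S.nxt Sm (i₀ - 1) = i₀ := by
          rw [S.nxt_neg (by simpa using hI.start), sub_add_cancel]
        exact hB.pred hSm (by rw [h3]; exact h) (by rw [h3]; exact h1)
      exact hi₀ (Or.inr h2)
  have hne01 : i₁ ≠ i₀ := fun h => hi₁I (h ▸ hI.mem_zero)
  -- the over conditions for `ov'`
  have hovI' : ∀ q, q ∉ Sm → q ∈ I → q ≠ i₀ → S.mate q ∈ Y → ov' q = true := by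
    intro q h1 h2 h3 h4
    have hq1 : q ≠ i₁ := fun h => hi₁I (h ▸ h2)
    have hq2 : q ≠ j₁ := fun h => hj₁I (h ▸ h2)
    have hq3 : q ≠ j₀ := by
      rintro rfl
      rw [hovI q h1 h2 h3 h4] at hc0; cases hc0
    rw [hsame q h3 hq1 hq3 hq2]
    exact hovI q h1 h2 h3 h4
  have hovB' : ∀ q, q ∉ Sm → q ∈ B → q ≠ j₀ → S.mate q ∈ Y → ov' q = true := by
    intro q h1 h2 h3 h4
    have hq1 : q ≠ i₁ := fun h => hi₁B (h ▸ h2)
    have hq2 : q ≠ j₁ := fun h => hj₁B (h ▸ h2)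
    have hq3 : q ≠ i₀ := fun h => hi₀B (h ▸ h2)
    rw [hsame q hq3 hq1 h3 hq2]
    exact hovB q h1 h2 h3 h4
  -- colours
  set y := col r (i₀ - 1) with hy
  set y' := col r i₀ with hy'
  set z := col r j₀ with hz
  have hcI : ∀ e, e ∈ I → col r e = y' := fun e he => hI.const hSm hY hr hIY hovI' he
  have hcB : ∀ e, e ∈ B → col r e = z := fun e he => hB.const hSm hY hr hBY hovB' he
  have hz1 : col r j₁ = z := by
    have hmY : S.mate j₁ ∈ Y := by
      rcases hmate with ⟨_, h⟩ | ⟨_, h⟩ <;> rw [h] <;> assumption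
    rw [hr.cross j₁ hB.stop hj₁Y hmY hc1', hcB _ (hB.last_mem hSm)]
  have hz0' : col r j₀ = col r (j₀ - 1) := by
    have hmY : S.mate j₀ ∈ Y := by
      rcases hmate with ⟨h, _⟩ | ⟨h, _⟩ <;> rw [h] <;> assumption
    exact hr.cross j₀ hB.start hj₀Y hmY hc0'
  have hz1' : col r j₁ = col r (j₁ - 1) := by rw [hz1, hcB _ (hB.last_mem hSm)]
  -- the mate of i₀ and i₁
  have hgi0 : col r (S.mate i₀) = z ∧ col r (S.mate i₀) = col r (S.mate i₀ - 1) := by
    rcases hmi with ⟨h, _⟩ | ⟨h, _⟩ <;> rw [h]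
    · exact ⟨rfl, hz0'⟩
    · exact ⟨hz1, hz1'⟩
  have hgi1 : col r (S.mate i₁) = z ∧ col r (S.mate i₁) = col r (S.mate i₁ - 1) := by
    rcases hmi with ⟨_, h⟩ | ⟨_, h⟩ <;> rw [h]
    · exact ⟨hz1, hz1'⟩
    · exact ⟨rfl, hz0'⟩
  have hs01 : S.toLeft i₁ = !S.toLeft i₀ := by
    rcases hmate with ⟨h1, h2⟩ | ⟨h1, h2⟩
    · rw [← h1, ← h2, S.toLeft_mate, S.toLeft_mate, hsgn]
    · rw [← h1, ← h2, S.toLeft_mate, S.toLeft_mate, hsgn]; simp
  have hu0 := S.col_under hr.face hgi0.2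
  have hu1 := S.col_under hr.face hgi1.2
  rw [hgi0.1, ← hy, ← hy'] at hu0
  rw [hgi1.1, hcI _ (hI.last_mem hSm), hs01] at hu1
  have hy1 : col r i₁ = y := by
    rw [hu1, hu0]
    cases S.toLeft i₀ <;> simp <;> group
  -- the twist
  set u : G := if lI then y'⁻¹ * y else y' * y⁻¹ with hu
  have hnot : ∀ e, e ∈ I → f (e, !lI) = false := by
    intro e he
    have := hf.not_of_mem (Or.inl he : e ∈ I ∪ B) lI
    rw [hfI e he] at this
    simpa using this.symm
  have hnotB : ∀ e, e ∈ B → f (e, !lB) = false := by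
    intro e he
    have := hf.not_of_mem (Or.inr he : e ∈ I ∪ B) lB
    rw [hfB e he] at this
    simpa using this.symm
  have htI : ∀ e, e ∈ I → col (tw f u r) e = y := by
    intro e he
    have h1 := hfI e he
    have h2 := hnot e he
    cases lI
    · rw [col_tw_right h2 h1, hcI e he, hu]; simp
    · rw [col_tw_left h1 h2, hcI e he, hu]; simp
  have htB : ∀ e, e ∈ B → col (tw f u r) e = if lB then z * u else u⁻¹ * z := by
    intro e he
    have h1 := hfB e he
    have h2 := hnotB e he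
    cases lB
    · rw [col_tw_right h2 h1, hcB e he]; simp
    · rw [col_tw_left h1 h2, hcB e he]; simp
  have hout : ∀ e, e ∉ I ∪ B → f (e, true) = false → col (tw f u r) e = col r e := by
    intro e he h
    exact col_tw_out h (by rw [← hf.eq_of_notMem he true false, h])
  have hlab : S.IsLab Sm Y ov (tw f u r) := by
    refine ⟨tw_face hf.face _ hr.face, ?_, ?_, ?_⟩
    · intro e he
      exact col_tw_one hf (by rintro (h | h); exacts [he (hIY h), he (hBY h)]) (hr.off e he)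
    · intro q hq h1 h2 h3
      have hnq : S.nxt Sm (q - 1) = q := by
        rw [S.nxt_neg (by simpa using hq), sub_add_cancel]
      have hq' : S.mate q ∉ Sm := fun h => hq ((hSm _).1 h)
      have hnq' : S.nxt Sm (S.mate q - 1) = S.mate q := by
        rw [S.nxt_neg (by simpa using hq'), sub_add_cancel]
      by_cases hqi0 : q = i₀
      · rw [hqi0, htI _ hI.mem_zero, hout _ hi₀ hf0]
      by_cases hqi1 : q = i₁
      · rw [hqi1, htI _ (hI.last_mem hSm), hout _ hi₁ hf1, hy1]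
      have hqj0 : q ≠ j₀ := by rintro rfl; rw [hc0] at h3; cases h3
      have hqj1 : q ≠ j₁ := by rintro rfl; rw [hc1] at h3; cases h3
      by_cases hqI : q ∈ I
      · rw [htI _ hqI, htI _ (hI.pred hSm (by rw [hnq]; exact hqI) (by rw [hnq]; exact hqi0))]
      by_cases hqB : q ∈ B
      · rw [htB _ hqB, htB _ (hB.pred hSm (by rw [hnq]; exact hqB) (by rw [hnq]; exact hqj0))]
      have hq1 : q - 1 ∉ I ∪ B := by
        rintro (h | h)
        · rcases hI.succ h with h4 | h4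
          · rw [hnq] at h4; exact hqI h4
          · rw [hnq] at h4; exact hqi1 h4
        · rcases hB.succ h with h4 | h4
          · rw [hnq] at h4; exact hqB h4
          · rw [hnq] at h4; exact hqj1 h4
      have hmi0 : S.mate q ≠ i₀ := by
        intro h
        have h4 : q = S.mate i₀ := by rw [← h, S.mate_mate]
        rcases hmi with ⟨h5, _⟩ | ⟨h5, _⟩ <;> rw [h5] at h4
        exacts [hqj0 h4, hqj1 h4]
      have hmi1 : S.mate q ≠ i₁ := by
        intro h
        have h4 : q = S.mate i₁ := by rw [← h, S.mate_mate]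
        rcases hmi with ⟨_, h5⟩ | ⟨_, h5⟩ <;> rw [h5] at h4
        exacts [hqj1 h4, hqj0 h4]
      have hmj0 : S.mate q ≠ j₀ := by
        intro h
        have h4 : q = S.mate j₀ := by rw [← h, S.mate_mate]
        rcases hmate with ⟨h5, _⟩ | ⟨h5, _⟩ <;> rw [h5] at h4
        exacts [hqi0 h4, hqi1 h4]
      have hmj1 : S.mate q ≠ j₁ := by
        intro h
        have h4 : q = S.mate j₁ := by rw [← h, S.mate_mate]
        rcases hmate with ⟨_, h5⟩ | ⟨_, h5⟩ <;> rw [h5] at h4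
        exacts [hqi1 h4, hqi0 h4]
      have hmm : S.mate (S.mate q) ∈ Y := by rw [S.mate_mate]; exact h1
      have hm1 : S.mate q ∉ I ∪ B := by
        rintro (h | h)
        · have h4 := hovI _ hq' h hmi0 hmm
          rw [hov, h3] at h4; cases h4
        · have h4 := hovB _ hq' h hmj0 hmm
          rw [hov, h3] at h4; cases h4
      have hm2 : S.mate q - 1 ∉ I ∪ B := by
        rintro (h | h)
        · rcases hI.succ h with h4 | h4
          · rw [hnq'] at h4; exact hm1 (Or.inl h4)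
          · rw [hnq'] at h4; exact hmi1 h4
        · rcases hB.succ h with h4 | h4
          · rw [hnq'] at h4; exact hm1 (Or.inr h4)
          · rw [hnq'] at h4; exact hmj1 h4
      have hqIB : q ∉ I ∪ B := by rintro (h | h); exacts [hqI h, hqB h]
      exact col_tw_eq hf hqIB hq1 (hf.straight hm1 hm2 true)
        (hr.cross q hq h1 h2 (by rw [hsame q hqi0 hqi1 hqj0 hqj1]; exact h3))
    · intro q hq
      have hnq : S.nxt Sm (q - 1) = S.mate q := by
        rw [S.nxt_pos (by simpa using hq), sub_add_cancel]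
      have hmS : S.mate q ∈ Sm := (hSm _).2 hq
      by_cases h1 : q - 1 ∈ I
      · have h2 : S.mate q ∈ I := by
          rcases hI.succ h1 with h4 | h4
          · rwa [hnq] at h4
          · rw [hnq] at h4; exact absurd hmS (by rw [h4]; exact hI.stop)
        rw [htI _ h1, htI _ h2]
      by_cases h1' : q - 1 ∈ B
      · have h2 : S.mate q ∈ B := by
          rcases hB.succ h1' with h4 | h4
          · rwa [hnq] at h4
          · rw [hnq] at h4; exact absurd hmS (by rw [h4]; exact hB.stop)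
        rw [htB _ h1', htB _ h2]
      have h3 : q - 1 ∉ I ∪ B := by rintro (h | h); exacts [h1 h, h1' h]
      have h4 : S.mate q ∉ I ∪ B := by
        rintro (h | h)
        · exact h1 (hI.pred hSm (by rw [hnq]; exact h)
            (by rw [hnq]; intro h5; exact hI.start (h5 ▸ hmS)))
        · exact h1' (hB.pred hSm (by rw [hnq]; exact h)
            (by rw [hnq]; intro h5; exact hB.start (h5 ▸ hmS)))
      exact col_tw_eq hf h4 h3 (hf.turn' h3 h4 true true) (hr.smooth q hq)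
  -- conclusion
  have hc : ∀ e, e ∈ Y → col (tw f u r) e = y := by
    intro e he
    rw [hg G _ hlab e he _ hi₀Y', hout _ hi₀ hf0]
  have hzy : z = y := by
    have h1 := hc j₁ hj₁Y
    rw [hout _ hj₁ hf2, hz1] at h1
    exact h1
  have hyy : y' = y := by
    rw [hu0, hzy]; split_ifs <;> group
  have hu1 : u = 1 := by
    rw [hu, hyy]; split_ifs <;> group
  have htw : tw f u r = r := by
    funext x
    simp [tw, hu1]
  rw [htw] at hc
  intro e he e' he'
  rw [hc e he, hc e' he']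

end Code
end Pool.Agent.Helper50.UK
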