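import Pool.Agent.Helper50.UK.Arc2

set_option autoImplicit false

namespace Pool.Agent.Helper50.UK
namespace Code

variable {n : ℕ} {S : Code n} {V α β : Set (ZMod (2 * n))} {x y : ZMod (2 * n)}
  {f : ZMod (2 * n) × Bool → Bool}

/-- The part of `β` between two consecutive crossings with `α`. -/
structure IsArc (S : Code n) (V α β : Set (ZMod (2 * n))) (p p' : ZMod (2 * n)) (k : ℕ) : Prop where
  start : p ∈ S.Crs V α β
  pos : 0 < k
  eq : (S.nxt V)^[k] p = p'
  stop : p' ∈ S.Crs V α β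
  free : ∀ l, 0 < l → l < k → (S.nxt V)^[l] p ∉ S.Crs V α β

theorem exists_arc [NeZero n] (hV : S.MC V) {p : ZMod (2 * n)} (hp : p ∈ S.Crs V α β) :
    ∃ p' k, S.IsArc V α β p p' k := by
  classical
  obtain ⟨L, hL, hL'⟩ := exists_period hV p
  have hex : ∃ l, 0 < l ∧ (S.nxt V)^[l] p ∈ S.Crs V α β := ⟨L, hL, by rw [hL']; exact hp⟩
  refine ⟨_, Nat.find hex, hp, (Nat.find_spec hex).1, rfl, (Nat.find_spec hex).2, ?_⟩
  intro l hl hl' h
  exact Nat.find_min hex hl' ⟨hl, h⟩

theorem IsArc.mem {p p' : ZMod (2 * n)} {k : ℕ} (h : S.IsArc V α β p p' k)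
    (hβ : S.Closed V β) (l : ℕ) : (S.nxt V)^[l] p ∈ β := by
  induction l with
  | zero => exact h.start.1
  | succ l ih => rw [Function.iterate_succ_apply']; exact (hβ _).2 ih

theorem IsArc.side {p p' : ZMod (2 * n)} {k : ℕ} (h : S.IsArc V α β p p' k) (hV : S.MC V)
    (hα : S.Closed V α) (hβ : S.Closed V β) (hd : Disjoint α β) (hf : S.IsSide α f)
    {l : ℕ} (hl : l < k) (b b' : Bool) : f ((S.nxt V)^[l] p, b) = f (p, b') := by
  induction l with
  | zero =>
    exact hf.eq_of_notMem (fun h1 => Set.disjoint_left.1 hd h1 h.start.1) b b'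
  | succ l ih =>
    have h1 := h.free (l + 1) (by omega) hl
    rw [Function.iterate_succ_apply'] at h1 ⊢
    rw [side_nxt hV hα hβ hd hf (h.mem hβ l) h1 b b, ih (by omega)]

/-- the last edge of the arc -/
theorem IsArc.last {p p' : ZMod (2 * n)} {k : ℕ} (h : S.IsArc V α β p p' k) (hV : S.MC V) :
    (S.nxt V)^[k - 1] p = p' - 1 := by
  obtain ⟨j, rfl⟩ : ∃ j, k = j + 1 := ⟨k - 1, by have := h.pos; omega⟩
  have h1 := h.eq
  rw [Function.iterate_succ_apply'] at h1
  rw [Nat.add_sub_cancel]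
  by_cases hs : (S.nxt V)^[j] p + 1 ∈ V
  · rw [S.nxt_pos hs] at h1
    exact absurd ((hV _).2 hs) (by rw [h1]; exact h.stop.2.1)
  · rw [S.nxt_neg hs] at h1
    rw [← h1, add_sub_cancel_right]

theorem IsArc.side_stop {p p' : ZMod (2 * n)} {k : ℕ} (h : S.IsArc V α β p p' k) (hV : S.MC V)
    (hα : S.Closed V α) (hβ : S.Closed V β) (hd : Disjoint α β) (hf : S.IsSide α f) (b b' : Bool) :
    f (p', b) = !f (p, b') := by
  have h1 := side_crs hβ hd hf h.stop b b
  have h2 := h.side hV hα hβ hd hf (l := k - 1) (by have := h.pos; omega) b b'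
  rw [h.last hV] at h2
  rw [h1, h2]

theorem IsArc.isPath {p p' : ZMod (2 * n)} {k : ℕ} (h : S.IsArc V α β p p' k) (hV : S.MC V)
    (hα : S.Closed V α) (hβ : S.Closed V β) (hd : Disjoint α β) (hf : S.IsSide α f) :
    S.IsPath V (S.pset V p k) p p' k := by
  have h1 := isPath_pset (S := S) (V := V) h.pos h.start.2.1 (by rw [h.eq]; exact h.stop.2.1) (by
    intro l hl hl'
    rcases Nat.lt_or_ge l k with h2 | h2
    · intro h3
      exact h.free l hl h2 (by rw [h3]; exact h.start)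
    · rw [show l = k by omega, h.eq]
      intro h3
      have := h.side_stop hV hα hβ hd hf true true
      rw [h3] at this
      cases h4 : f (p, true) <;> simp [h4] at this)
  rwa [h.eq] at h1

theorem pset_sub {p : ZMod (2 * n)} {k : ℕ} (hβ : S.Closed V β) (hp : p ∈ β) :
    S.pset V p k ⊆ β := by
  rintro e ⟨l, hl, rfl⟩
  clear hl
  induction l with
  | zero => exact hp
  | succ l ih => rw [Function.iterate_succ_apply']; exact (hβ _).2 ih

/-- The geometry of one arc: the inside of the bigon formed by an arc of `β` and a part of `α`. -/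
theorem arc_geom (hV : S.MC V) (hα : S.IsLoop V α x) (hβs : S.IsLoop V β y)
    (hd : Disjoint α β) (hf : S.IsSide α f)
    (hJ : ∀ C : Set (ZMod (2 * n)), S.Bal C → ∀ (a₀ : ZMod (2 * n) × Bool) (b₀ : Bool),
      ∃ F, S.IsSide C F ∧ F a₀ = b₀)
    {N : ℕ} (hNinj : ∀ i j, i < N → j < N → (S.nxt V)^[i] x = (S.nxt V)^[j] x → i = j)
    (hNex : ∀ e ∈ α, ∃ l < N, (S.nxt V)^[l] x = e)
    {p p' : ZMod (2 * n)} {k : ℕ} (harc : S.IsArc V α β p p' k) (hp : f (p, true) = true)
    {lo hi : ℕ} (hlo : 0 < lo) (hlh : lo < hi) (hhi : hi < N)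
    (hmate : (S.mate p = (S.nxt V)^[lo] x ∧ S.mate p' = (S.nxt V)^[hi] x) ∨
      (S.mate p = (S.nxt V)^[hi] x ∧ S.mate p' = (S.nxt V)^[lo] x)) :
    ∃ (F : ZMod (2 * n) × Bool → Bool) (lI lB : Bool),
      S.IsPath V (S.pset V ((S.nxt V)^[lo] x) (hi - lo)) ((S.nxt V)^[lo] x) ((S.nxt V)^[hi] x)
        (hi - lo) ∧
      S.IsSide (S.pset V ((S.nxt V)^[lo] x) (hi - lo) ∪ S.pset V p k) F ∧
      (∀ e ∈ S.pset V ((S.nxt V)^[lo] x) (hi - lo), F (e, lI) = true) ∧
      (∀ e ∈ S.pset V p k, F (e, lB) = true) ∧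
      F ((S.nxt V)^[lo] x - 1, true) = false ∧ F ((S.nxt V)^[hi] x, true) = false ∧
      F (p', true) = false ∧
      (S.nxt V)^[hi] x ∉ S.pset V ((S.nxt V)^[lo] x) (hi - lo) ∪ S.pset V p k ∧
      p' ∉ S.pset V ((S.nxt V)^[lo] x) (hi - lo) ∪ S.pset V p k ∧
      (S.nxt V)^[lo] x - 1 ∉ S.pset V ((S.nxt V)^[lo] x) (hi - lo) ∪ S.pset V p k ∧
      (∀ q ∈ S.Crs V α β, f (q, true) = true → q ≠ p →
        (F (q, true) = true ↔ S.mate q ∈ S.pset V ((S.nxt V)^[lo] x) (hi - lo))) ∧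
      (∀ q ∈ S.Crs V α β, f (q, true) = false → q ≠ p' →
        (F (q - 1, true) = true ↔ S.mate q ∈ S.pset V ((S.nxt V)^[lo] x) (hi - lo))) := by
  have hα1 : S.Closed V α := hα.closed
  have hβ : S.Closed V β := hβs.closed
  have hnα : ∀ e, e ∈ β → e ∉ α := fun e h1 h2 => Set.disjoint_left.1 hd h2 h1
  have hnβ : ∀ e, e ∈ α → e ∉ β := fun e h1 h2 => Set.disjoint_left.1 hd h1 h2
  have hadd : ∀ l, (S.nxt V)^[l] ((S.nxt V)^[lo] x) = (S.nxt V)^[lo + l] x := by
    intro l
    rw [← Function.iterate_add_apply, add_comm]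
  set i₀ := (S.nxt V)^[lo] x with hi₀def
  set i₁ := (S.nxt V)^[hi] x with hi₁def
  set I := S.pset V i₀ (hi - lo) with hIdef
  set B := S.pset V p k with hBdef
  have hi₀α : i₀ ∈ α := hα.iter_mem lo
  have hi₁α : i₁ ∈ α := hα.iter_mem hi
  have hp'β : p' ∈ β := harc.stop.1
  have hpβ : p ∈ β := harc.start.1
  have hmp : S.mate p ∉ V := fun h => harc.start.2.1 ((hV _).1 h)
  have hmp' : S.mate p' ∉ V := fun h => harc.stop.2.1 ((hV _).1 h)
  have hi₀V : i₀ ∉ V := by
    rcases hmate with ⟨h1, h2⟩ | ⟨h1, h2⟩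
    · rw [← h1]; exact hmp
    · rw [← h2]; exact hmp'
  have hi₁V : i₁ ∉ V := by
    rcases hmate with ⟨h1, h2⟩ | ⟨h1, h2⟩
    · rw [← h2]; exact hmp'
    · rw [← h1]; exact hmp
  have hIα : I ⊆ α := pset_sub hα1 hi₀α
  have hBβ : B ⊆ β := pset_sub hβ hpβ
  have hI : S.IsPath V I i₀ i₁ (hi - lo) := by
    have h1 := isPath_pset (S := S) (V := V) (i₀ := i₀) (k := hi - lo) (by omega) hi₀V
      (by rw [hadd, show lo + (hi - lo) = hi by omega]; exact hi₁V) (by
        intro l hl hl' h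
        rw [hadd] at h
        have := hNinj _ _ (by omega) (by omega) h
        omega)
    rwa [hadd, show lo + (hi - lo) = hi by omega] at h1
  have hB : S.IsPath V B p p' k := harc.isPath hV hα1 hβ hd hf
  -- membership in `I` by indices
  have hmemI : ∀ l, l < N → ((S.nxt V)^[l] x ∈ I ↔ lo ≤ l ∧ l < hi) := by
    intro l hl
    constructor
    · rintro ⟨j, hj, h⟩
      rw [hadd] at h
      have := hNinj _ _ hl (by omega) h
      omega
    · rintro ⟨h1, h2⟩
      exact ⟨l - lo, by omega, by rw [hadd, show lo + (l - lo) = l by omega]⟩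
  have hi₁I : i₁ ∉ I := by rw [hi₁def, hmemI hi hhi]; omega
  have hi₁B : i₁ ∉ B := fun h => hnβ _ hi₁α (hBβ h)
  have hp'I : p' ∉ I := fun h => hnα _ hp'β (hIα h)
  have hCrsB : ∀ q ∈ S.Crs V α β, q ∈ B → q = p := by
    rintro q hq ⟨l, hl, rfl⟩
    rcases Nat.eq_zero_or_pos l with rfl | h
    · rfl
    · exact absurd hq (harc.free l h hl)
  have hpp' : p' ≠ p := hB.ne.symm
  have hp'B : p' ∉ B := fun h => hpp' (hCrsB _ harc.stop h)
  have hi₀1 : i₀ - 1 ∈ α := (hα1.straight hi₀V).1 hi₀α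
  have hi₁1 : i₁ - 1 ∈ I := hI.last_mem hV
  have hp'1 : p' - 1 ∈ B := hB.last_mem hV
  have hi₀I' : i₀ - 1 ∉ I := by
    intro h
    exact ((hI.straight_iff hV hi₁I hi₀V).1 ⟨fun _ => hI.mem_zero, fun _ => h⟩).1 rfl
  have hi₀B' : i₀ - 1 ∉ B := fun h => hnβ _ hi₀1 (hBβ h)
  have hp1 : p - 1 ∈ β := (hβ.straight harc.start.2.1).1 hpβ
  have hpI' : p - 1 ∉ I := fun h => hnα _ hp1 (hIα h)
  have hpB' : p - 1 ∉ B := by
    intro h
    exact ((hB.straight_iff hV hp'B harc.start.2.1).1 ⟨fun _ => hB.mem_zero, fun _ => h⟩).1 rfl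
  have hC1 : i₁ ∉ I ∪ B := by rintro (h | h); exacts [hi₁I h, hi₁B h]
  have hC2 : p' ∉ I ∪ B := by rintro (h | h); exacts [hp'I h, hp'B h]
  have hC3 : i₀ - 1 ∉ I ∪ B := by rintro (h | h); exacts [hi₀I' h, hi₀B' h]
  have hC4 : p - 1 ∉ I ∪ B := by rintro (h | h); exacts [hpI' h, hpB' h]
  have hmate' : (S.mate p = i₀ ∧ S.mate p' = i₁) ∨ (S.mate p = i₁ ∧ S.mate p' = i₀) := hmate
  have hbal : S.Bal (I ∪ B) := by
    refine bal_union hI hB hV hi₁I hp'B hmate' ?_ ?_
    · intro q hq h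
      have hqα : q ∈ α := by
        rcases h with h | h
        · exact hIα h
        · exact (hα1.straight hq).2 (hIα h)
      have hqα' : q - 1 ∈ α := (hα1.straight hq).1 hqα
      exact ⟨fun h => hnβ _ hqα (hBβ h), fun h => hnβ _ hqα' (hBβ h),
        fun h => hnβ _ hqα (h ▸ hpβ), fun h => hnβ _ hqα (h ▸ hp'β)⟩
    · intro q hq h
      have hqβ : q ∈ β := by
        rcases h with h | h
        · exact hBβ h
        · exact (hβ.straight hq).2 (hBβ h)
      exact ⟨fun h => hnα _ hqβ (h ▸ hi₀α), fun h => hnα _ hqβ (h ▸ hi₁α)⟩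
  obtain ⟨F, hF, hF0⟩ := hJ _ hbal (i₀ - 1, true) false
  -- other passages of `α`
  have hxα : ∀ q ∈ α, q ∉ V → q ≠ i₀ → q ≠ i₁ → S.mate q ∉ I ∪ B ∧ S.mate q - 1 ∉ I ∪ B := by
    intro q hq hqV h0 h1
    have hmV : S.mate q ∉ V := fun h => hqV ((hV _).1 h)
    have hmα : S.mate q ∉ α := hα.simple q hq
    have hmα' : S.mate q - 1 ∉ α := fun h => hmα ((hα1.straight hmV).2 h)
    have hmp0 : S.mate q ≠ p := by
      intro h
      have h4 : q = S.mate p := by rw [← h, S.mate_mate]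
      rcases hmate' with ⟨h5, _⟩ | ⟨h5, _⟩ <;> rw [h5] at h4
      exacts [h0 h4, h1 h4]
    have hmp1 : S.mate q ≠ p' := by
      intro h
      have h4 : q = S.mate p' := by rw [← h, S.mate_mate]
      rcases hmate' with ⟨_, h5⟩ | ⟨_, h5⟩ <;> rw [h5] at h4
      exacts [h1 h4, h0 h4]
    have hmB : S.mate q ∉ B := by
      intro h
      exact hmp0 (hCrsB _ ⟨hBβ h, hmV, by rw [S.mate_mate]; exact hq⟩ h)
    refine ⟨?_, ?_⟩
    · rintro (h | h)
      exacts [hmα (hIα h), hmB h]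
    · rintro (h | h)
      · exact hmα' (hIα h)
      · have h6 := hB.succ h
        rw [S.nxt_neg (by simpa using hmV), sub_add_cancel] at h6
        rcases h6 with h6 | h6
        exacts [hmB h6, hmp1 h6]
  have hcI := hI.side_const hV hF (Or.inl fun e he => Or.inl he) (by
    intro q hq h h0
    exact hxα q (hIα h) hq h0 (fun h1 => hi₁I (h1 ▸ h)))
  -- other passages of `β`
  have hxβ : ∀ q ∈ β, q ∉ V → q ∉ S.Crs V α β →
      S.mate q ∉ I ∪ B ∧ S.mate q - 1 ∉ I ∪ B := by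
    intro q hq hqV hqC
    have hmV : S.mate q ∉ V := fun h => hqV ((hV _).1 h)
    have hmα : S.mate q ∉ α := fun h => hqC ⟨hq, hqV, h⟩
    have hmβ : S.mate q ∉ β := hβs.simple q hq
    refine ⟨?_, ?_⟩
    · rintro (h | h)
      exacts [hmα (hIα h), hmβ (hBβ h)]
    · rintro (h | h)
      exacts [hmα ((hα1.straight hmV).2 (hIα h)), hmβ ((hβ.straight hmV).2 (hBβ h))]
  have hcB := hB.side_const hV hF (Or.inl fun e he => Or.inr he) (by
    intro q hq h h0
    exact hxβ q (hBβ h) hq (fun h1 => h0 (hCrsB q h1 h)))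
  have hs' : S.toLeft p' = !S.toLeft p := by
    rw [toLeft_of_entrance hα hV hd hf harc.start, toLeft_of_entrance hα hV hd hf harc.stop,
      harc.side_stop hV hα1 hβ hd hf true true, hp]
    cases f (x, true) <;> rfl
  have hi₀I : i₀ ∈ I := hI.mem_zero
  have hpB : p ∈ B := hB.mem_zero
  obtain ⟨lB, h1, h2, h3, h4⟩ : ∃ lB : Bool, F (p, lB) = true ∧ F (i₀, !S.toLeft p) = true ∧
      F (i₁, true) = false ∧ F (p', true) = false := by
    rcases hmate' with ⟨h5, h6⟩ | ⟨h5, h6⟩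
    · obtain ⟨a1, a2, a3⟩ := hF.corner_tt hC4 (Or.inr hpB) (by rw [h5]; exact hC3)
        (by rw [h5]; exact Or.inl hi₀I)
      rw [h5] at a1 a3
      obtain ⟨b1, b2, b3⟩ := hF.corner_ff (Or.inr hp'1) hC2 (by rw [h6]; exact Or.inl hi₁1)
        (by rw [h6]; exact hC1)
      rw [h6] at b1
      rw [hF0] at a1
      rw [← a1] at a2 a3
      rw [hs', Bool.not_not, hcB _ hp'1, a2] at b2
      have b4 : F (p', true) = false := by
        cases h7 : F (p', true)
        · rfl
        · rw [h7] at b2; simp at b2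
      exact ⟨S.toLeft p, by simpa using a2, by simpa using a3, by rw [b1, b4], b4⟩
    · obtain ⟨a1, a2, a3⟩ := hF.corner_tf hC4 (Or.inr hpB) (by rw [h5]; exact Or.inl hi₁1)
        (by rw [h5]; exact hC1)
      rw [h5] at a1 a3
      obtain ⟨b1, b2, b3⟩ := hF.corner_ft (Or.inr hp'1) hC2 (by rw [h6]; exact hC3)
        (by rw [h6]; exact Or.inl hi₀I)
      rw [h6] at b1 b3
      rw [hF0] at b1
      rw [← b1] at b2 b3
      rw [hs', hcB _ hp'1] at b2
      rw [hs'] at b3
      rw [b2] at a2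
      have a4 : F (p - 1, true) = false := by
        cases h7 : F (p - 1, true)
        · rfl
        · rw [h7] at a2; simp at a2
      exact ⟨!S.toLeft p, by simpa using b2, by simpa using b3, by rw [a1, a4], b1.symm⟩
  -- `α` outside `I`
  have hstep : ∀ l b, l + 1 < N → l + 1 ≠ lo → l + 1 ≠ hi → (S.nxt V)^[l] x ∉ I →
      (S.nxt V)^[l + 1] x ∉ I → F ((S.nxt V)^[l + 1] x, b) = F ((S.nxt V)^[l] x, b) := by
    intro l b hl hlo' hhi' h5 h6
    have hm0 : (S.nxt V)^[l] x ∈ α := hα.iter_mem l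
    have hm1 : (S.nxt V)^[l + 1] x ∈ α := hα.iter_mem (l + 1)
    have hn0 : (S.nxt V)^[l + 1] x ≠ i₀ := by
      intro h; exact hlo' (hNinj _ _ hl (by omega) h)
    have hn1 : (S.nxt V)^[l + 1] x ≠ i₁ := by
      intro h; exact hhi' (hNinj _ _ hl (by omega) h)
    rw [Function.iterate_succ_apply'] at h6 hm1 hn0 hn1 ⊢
    set e := (S.nxt V)^[l] x with hedef
    have h5' : e ∉ I ∪ B := by rintro (h | h); exacts [h5 h, hnβ _ hm0 (hBβ h)]
    have h6' : S.nxt V e ∉ I ∪ B := by rintro (h | h); exacts [h6 h, hnβ _ hm1 (hBβ h)]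
    by_cases hs : e + 1 ∈ V
    · rw [S.nxt_pos hs] at h6' ⊢
      have := hF.turn' (q := e + 1) (by simpa using h5') h6' b b
      simpa using this
    · rw [S.nxt_neg hs] at hm1 hn0 hn1 ⊢
      obtain ⟨h7, h8⟩ := hxα _ hm1 hs hn0 hn1
      have := hF.straight h7 h8 b
      simpa using this
  have hup : ∀ l, hi ≤ l → l < N → ∀ b, F ((S.nxt V)^[l] x, b) = false := by
    intro l hl
    induction l, hl using Nat.le_induction with
    | base => intro _ b; rw [hF.eq_of_notMem hC1 b true]; exact h3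
    | succ l hl ih =>
      intro hlN b
      rw [hstep l b hlN (by omega) (by omega) (by rw [hmemI l (by omega)]; omega)
        (by rw [hmemI _ hlN]; omega)]
      exact ih (by omega) b
  have hpred : (S.nxt V)^[lo - 1] x = i₀ - 1 := by
    obtain ⟨j, hj⟩ : ∃ j, lo = j + 1 := ⟨lo - 1, by omega⟩
    have h5 : (S.nxt V)^[j + 1] x = i₀ := by rw [← hj]
    rw [Function.iterate_succ_apply'] at h5
    rw [hj, Nat.add_sub_cancel]
    by_cases hs : (S.nxt V)^[j] x + 1 ∈ V
    · rw [S.nxt_pos hs] at h5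
      exact absurd ((hV _).2 hs) (by rw [h5]; exact hi₀V)
    · rw [S.nxt_neg hs] at h5
      rw [← h5, add_sub_cancel_right]
  have hdown : ∀ j, j < lo → ∀ b, F ((S.nxt V)^[lo - 1 - j] x, b) = false := by
    intro j
    induction j with
    | zero => intro _ b; rw [Nat.sub_zero, hpred, hF.eq_of_notMem hC3 b true]; exact hF0
    | succ j ih =>
      intro hj b
      have h5 := ih (by omega) b
      rw [show lo - 1 - j = (lo - 1 - (j + 1)) + 1 by omega] at h5
      rw [← hstep (lo - 1 - (j + 1)) b (by omega) (by omega) (by omega)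
        (by rw [hmemI _ (by omega)]; omega) (by rw [hmemI _ (by omega)]; omega)]
      exact h5
  have hαout : ∀ e ∈ α, e ∉ I → ∀ b, F (e, b) = false := by
    intro e he heI b
    obtain ⟨l, hl, rfl⟩ := hNex e he
    rw [hmemI l hl] at heI
    by_cases h5 : hi ≤ l
    · exact hup l h5 hl b
    · have := hdown (lo - 1 - l) (by omega) b
      rwa [show lo - 1 - (lo - 1 - l) = l by omega] at this
  have hαin : ∀ e ∈ I, F (e, !S.toLeft p) = true := fun e he => by rw [hcI e he]; exact h2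
  refine ⟨F, !S.toLeft p, lB, hI, hF, hαin, fun e he => by rw [hcB e he]; exact h1, hF0, h3, h4,
    hC1, hC2, hC3, ?_, ?_⟩
  · intro q hq hqf hqp
    have hqC : q ∉ I ∪ B := by
      rintro (h | h)
      exacts [hnα _ hq.1 (hIα h), hqp (hCrsB _ hq h)]
    have hsq : S.toLeft q = S.toLeft p := by
      rw [toLeft_of_entrance hα hV hd hf harc.start, toLeft_of_entrance hα hV hd hf hq, hqf, hp]
    rw [hF.after hqC true, hsq]
    constructor
    · intro h
      by_contra h5
      rw [hαout _ hq.2.2 h5] at h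
      cases h
    · intro h
      exact hαin _ h
  · intro q hq hqf hqp
    have hq1 : q - 1 ∈ β := crs_pred hβ hq
    have hqC : q - 1 ∉ I ∪ B := by
      rintro (h | h)
      · exact hnα _ hq1 (hIα h)
      · have h6 := hB.succ h
        rw [S.nxt_neg (by simpa using hq.2.1), sub_add_cancel] at h6
        rcases h6 with h6 | h6
        · have h7 := hCrsB _ hq h6
          rw [h7, hp] at hqf
          cases hqf
        · exact hqp h6
    have hsq : S.toLeft q = !S.toLeft p := by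
      rw [toLeft_of_entrance hα hV hd hf harc.start, toLeft_of_entrance hα hV hd hf hq, hqf, hp]
      cases f (x, true) <;> rfl
    rw [hF.before hqC true, hsq]
    constructor
    · intro h
      by_contra h5
      rw [hαout _ hq.2.2 h5] at h
      cases h
    · intro h
      exact hαin _ h

end Code
end Pool.Agent.Helper50.UK
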