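import Pool.Agent.Helper50.UK.Basic

set_option autoImplicit false

namespace Pool.Agent.Helper50.UK
namespace Code

variable {n : ℕ} (S : Code n)

open Classical in
/-- The successor of an edge when the passages in `Sm` are smoothed. -/
noncomputable def nxt (Sm : Set (ZMod (2 * n))) (e : ZMod (2 * n)) : ZMod (2 * n) :=
  if e + 1 ∈ Sm then S.mate (e + 1) else e + 1

theorem nxt_pos {Sm : Set (ZMod (2 * n))} {e : ZMod (2 * n)} (h : e + 1 ∈ Sm) :
    S.nxt Sm e = S.mate (e + 1) := by
  simp [nxt, h]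

theorem nxt_neg {Sm : Set (ZMod (2 * n))} {e : ZMod (2 * n)} (h : e + 1 ∉ Sm) :
    S.nxt Sm e = e + 1 := by
  simp [nxt, h]

/-- `X` is a union of components of the curve smoothed at `Sm`. -/
def Closed (Sm X : Set (ZMod (2 * n))) : Prop := ∀ e, S.nxt Sm e ∈ X ↔ e ∈ X

/-- `Sm` is a set of double points. -/
def MC (Sm : Set (ZMod (2 * n))) : Prop := ∀ q, S.mate q ∈ Sm ↔ q ∈ Sm

variable {S} in
theorem Closed.straight {Sm X : Set (ZMod (2 * n))} (hX : S.Closed Sm X) {q : ZMod (2 * n)}
    (hq : q ∉ Sm) : q ∈ X ↔ q - 1 ∈ X := by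
  have h := hX (q - 1)
  rwa [S.nxt_neg (by simpa using hq), sub_add_cancel] at h

variable {S} in
theorem Closed.turn {Sm X : Set (ZMod (2 * n))} (hX : S.Closed Sm X) {q : ZMod (2 * n)}
    (hq : q ∈ Sm) : S.mate q ∈ X ↔ q - 1 ∈ X := by
  have h := hX (q - 1)
  rwa [S.nxt_pos (by simpa using hq), sub_add_cancel] at h

/-- A labelling of the faces by a group which is a Dehn colouring of the part `X` of the diagram
smoothed at `Sm` (all the rest of the curve has the trivial colour). -/
structure IsLab {G : Type} [Group G] (Sm X : Set (ZMod (2 * n))) (ov : ZMod (2 * n) → Bool)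
    (r : ZMod (2 * n) × Bool → G) : Prop where
  face : S.IsFace r
  off : ∀ e, e ∉ X → col r e = 1
  cross : ∀ q, q ∉ Sm → q ∈ X → S.mate q ∈ X → ov q = true → col r q = col r (q - 1)
  smooth : ∀ q, q ∈ Sm → col r (S.mate q) = col r (q - 1)

/-- All colourings of the part `X` of the diagram smoothed at `Sm` are constant. -/
def Good (Sm X : Set (ZMod (2 * n))) (ov : ZMod (2 * n) → Bool) : Prop :=
  ∀ (G : Type) [Group G] (r : ZMod (2 * n) × Bool → G), S.IsLab Sm X ov r →
    ∀ e ∈ X, ∀ e' ∈ X, col r e = col r e'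

variable {S} in
/-- `Good` depends only on the crossings of `X` with itself. -/
theorem Good.congr {Sm X : Set (ZMod (2 * n))} {ov ov' : ZMod (2 * n) → Bool}
    (h : ∀ q, q ∉ Sm → q ∈ X → S.mate q ∈ X → ov' q = true → ov q = true)
    (hg : S.Good Sm X ov') : S.Good Sm X ov := by
  intro G _ r hr e he e' he'
  exact hg G r ⟨hr.face, hr.off, fun q h1 h2 h3 h4 => hr.cross q h1 h2 h3 (h q h1 h2 h3 h4),
    hr.smooth⟩ e he e' he'

end Code
end Pool.Agent.Helper50.UK
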