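import Pool.Agent.Helper50.UK.Geom

set_option autoImplicit false

namespace Pool.Agent.Helper50.UK
namespace Code

variable {n : ℕ} {S : Code n} {V α β : Set (ZMod (2 * n))} {x y : ZMod (2 * n)}
  {f : ZMod (2 * n) × Bool → Bool}

theorem exists_arc_back [NeZero n] (hV : S.MC V) {p' : ZMod (2 * n)} (hp : p' ∈ S.Crs V α β) :
    ∃ p k, S.IsArc V α β p p' k := by
  classical
  obtain ⟨L, hL, hL'⟩ := exists_period hV p'
  have hex : ∃ j, 0 < j ∧ j ≤ L ∧ (S.nxt V)^[L - j] p' ∈ S.Crs V α β :=
    ⟨L, hL, le_rfl, by rw [Nat.sub_self]; exact hp⟩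
  obtain ⟨h1, h2, h3⟩ := Nat.find_spec hex
  refine ⟨(S.nxt V)^[L - Nat.find hex] p', Nat.find hex, h3, h1, ?_, hp, ?_⟩
  · rw [← Function.iterate_add_apply, show Nat.find hex + (L - Nat.find hex) = L by omega, hL']
  · intro l hl hl' h
    rw [← Function.iterate_add_apply,
      show l + (L - Nat.find hex) = L - (Nat.find hex - l) by omega] at h
    exact Nat.find_min hex (m := Nat.find hex - l) (by omega) ⟨by omega, by omega, h⟩

theorem IsArc.end_unique {p p' p'' : ZMod (2 * n)} {k k' : ℕ} (h : S.IsArc V α β p p' k)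
    (h' : S.IsArc V α β p p'' k') : p' = p'' := by
  rcases lt_trichotomy k k' with h1 | h1 | h1
  · exact absurd (by rw [h.eq]; exact h.stop) (h'.free k h.pos h1)
  · rw [← h.eq, ← h'.eq, h1]
  · exact absurd (by rw [h'.eq]; exact h'.stop) (h.free k' h'.pos h1)

theorem IsArc.start_unique (hV : S.MC V) {p p' p'' : ZMod (2 * n)} {k k' : ℕ}
    (h : S.IsArc V α β p p'' k) (h' : S.IsArc V α β p' p'' k') : p = p' := by
  have key : ∀ {a b : ZMod (2 * n)} {k k' : ℕ}, S.IsArc V α β a p'' k → S.IsArc V α β b p'' k' →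
      k < k' → False := by
    intro a b k k' h h' h1
    have h2 : (S.nxt V)^[k' - k] b = a := by
      apply iter_inj hV k
      rw [← Function.iterate_add_apply, show k + (k' - k) = k' by omega, h'.eq, h.eq]
    exact h'.free (k' - k) (by omega) (by have := h.pos; omega) (by rw [h2]; exact h.start)
  rcases lt_trichotomy k k' with h1 | h1 | h1
  · exact (key h h' h1).elim
  · apply iter_inj hV k
    rw [h.eq, h1, h'.eq]
  · exact (key h' h h1).elim

/-- Two arcs with a common edge are equal. -/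
theorem IsArc.disjoint (hV : S.MC V) {p p' q q' : ZMod (2 * n)} {k k' : ℕ}
    (h : S.IsArc V α β p p' k) (h' : S.IsArc V α β q q' k') {e : ZMod (2 * n)}
    (h1 : e ∈ S.pset V p k) (h2 : e ∈ S.pset V q k') : p = q := by
  obtain ⟨l, hl, rfl⟩ := h1
  obtain ⟨l', hl', h3⟩ := h2
  rcases Nat.lt_or_ge l l' with h4 | h4
  · have h5 : p = (S.nxt V)^[l' - l] q := by
      apply iter_inj hV l
      rw [h3, ← Function.iterate_add_apply, show l + (l' - l) = l' by omega]
    exact absurd (by rw [← h5]; exact h.start) (h'.free (l' - l) (by omega) (by omega))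
  · have h5 : (S.nxt V)^[l - l'] p = q := by
      apply iter_inj hV l'
      rw [← h3, ← Function.iterate_add_apply, show l' + (l - l') = l by omega]
    rcases Nat.eq_zero_or_pos (l - l') with h6 | h6
    · rw [h6] at h5; exact h5
    · exact absurd (by rw [h5]; exact h'.start) (h.free (l - l') h6 (by omega))

end Code

open Code in
/-- **Pair insertion**: from the diagrams in which `α` is over `β` to all diagrams in which the
arcs of `β` on the side `f = true` of `α` are entirely over or entirely under `α`. -/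
theorem Code.pair_flip' {n : ℕ} [NeZero n] (S : Code n)
    (hJ : ∀ C : Set (ZMod (2 * n)), S.Bal C → ∀ (a₀ : ZMod (2 * n) × Bool) (b₀ : Bool),
      ∃ F, S.IsSide C F ∧ F a₀ = b₀) {V Sm₂ Y α β : Set (ZMod (2 * n))}
    {x y : ZMod (2 * n)} {ov : ZMod (2 * n) → Bool} {f : ZMod (2 * n) × Bool → Bool}
    (hV : S.MC V) (hSm₂ : S.MC Sm₂) (hsub : Sm₂ ⊆ V) (hY : S.Closed Sm₂ Y)
    (hα : S.IsLoop V α x) (hβ : S.IsLoop V β y) (hd : Disjoint α β)
    (hαY : α ⊆ Y) (hβY : β ⊆ Y)
    (hα₂ : ∀ q ∈ α, q ∈ V → q ≠ x → q ∈ Sm₂) (hβ₂ : ∀ q ∈ β, q ∈ V → q ≠ y → q ∈ Sm₂)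
    (hf : S.IsSide α f) (hfy : f (y, true) = false)
    (hov : ∀ q, ov (S.mate q) = !ov q)
    (hover : ∀ q, q ∉ V → (q ∈ α ∨ q ∈ β) → S.mate q ∈ Y → S.mate q ∉ α → S.mate q ∉ β →
      ov q = true)
    (hcons : ∀ (q : ZMod (2 * n)) (l : ℕ), q ∈ S.Crs V α β → f (q, true) = true → 0 < l →
      (S.nxt V)^[l] q ∈ S.Crs V α β →
      (∀ l', 0 < l' → l' < l → (S.nxt V)^[l'] q ∉ S.Crs V α β) →
      ov ((S.nxt V)^[l] q) = ov q)
    (hbase : ∀ ov' : ZMod (2 * n) → Bool, (∀ q, ov' (S.mate q) = !ov' q) →
      (∀ q, q ∉ V → q ∈ α → S.mate q ∈ β → ov' q = true) →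
      (∀ q, (q ∈ V ∨ (¬ (q ∈ α ∧ S.mate q ∈ β) ∧ ¬ (q ∈ β ∧ S.mate q ∈ α))) → ov' q = ov q) →
      S.Good Sm₂ Y ov') :
    S.Good Sm₂ Y ov := by
  classical
  haveI : NeZero (2 * n) := ⟨by have := NeZero.ne n; omega⟩
  have hα1 : S.Closed V α := hα.closed
  have hβ1 : S.Closed V β := hβ.closed
  have hnα : ∀ e, e ∈ β → e ∉ α := fun e h1 h2 => Set.disjoint_left.1 hd h2 h1
  have hnβ : ∀ e, e ∈ α → e ∉ β := fun e h1 h2 => Set.disjoint_left.1 hd h1 h2
  -- the period of `α`
  obtain ⟨L, hL, hL'⟩ := exists_period hV x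
  set N := Function.minimalPeriod (S.nxt V) x with hNdef
  have hN : 0 < N := Function.IsPeriodicPt.minimalPeriod_pos hL hL'
  have hNinj : ∀ i j, i < N → j < N → (S.nxt V)^[i] x = (S.nxt V)^[j] x → i = j :=
    fun i j hi hj h => Function.iterate_injOn_Iio_minimalPeriod hi hj h
  have hNex : ∀ e ∈ α, ∃ l < N, (S.nxt V)^[l] x = e := by
    intro e he
    obtain ⟨l, rfl⟩ := hα.orbit e he
    exact ⟨l % N, Nat.mod_lt _ hN, Function.iterate_mod_minimalPeriod_eq⟩
  choose! ι hιN hι using hNex
  -- partners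
  have hex : ∀ p ∈ S.Crs V α β, ∃ p' k, S.IsArc V α β p p' k := fun p hp => exists_arc hV hp
  choose! ex len hexa using hex
  -- generalise over `ov`
  suffices H : ∀ (c : ℕ) (ow : ZMod (2 * n) → Bool), (∀ q, ow (S.mate q) = !ow q) →
      (∀ q, (q ∈ V ∨ (¬ (q ∈ α ∧ S.mate q ∈ β) ∧ ¬ (q ∈ β ∧ S.mate q ∈ α))) → ow q = ov q) →
      (∀ p p' k, S.IsArc V α β p p' k → f (p, true) = true → ow p' = ow p) →
      (Finset.univ.filter fun p => p ∈ S.Crs V α β ∧ f (p, true) = true ∧ ow p = true).card = c →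
      S.Good Sm₂ Y ow by
    refine H _ ov hov (fun _ _ => rfl) ?_ rfl
    intro p p' k h hp
    have := hcons p k h.start hp h.pos (by rw [h.eq]; exact h.stop) h.free
    rwa [h.eq] at this
  intro c
  induction c using Nat.strong_induction_on with
  | _ c ih =>
  intro ow how hag hco hc
  rcases Finset.eq_empty_or_nonempty
    (Finset.univ.filter fun p => p ∈ S.Crs V α β ∧ f (p, true) = true ∧ ow p = true) with hA | hA
  · -- base
    have hno : ∀ p ∈ S.Crs V α β, ow p = false := by
      have h1 : ∀ p ∈ S.Crs V α β, f (p, true) = true → ow p = false := by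
        intro p hp hfp
        by_contra h
        have h2 : p ∈ (Finset.univ.filter fun p => p ∈ S.Crs V α β ∧ f (p, true) = true ∧
            ow p = true) := by
          rw [Finset.mem_filter]
          exact ⟨Finset.mem_univ _, hp, hfp, by simpa using h⟩
        rw [hA] at h2
        exact absurd h2 (Finset.notMem_empty _)
      intro p hp
      cases hfp : f (p, true)
      · obtain ⟨p₀, k, ha⟩ := exists_arc_back hV hp
        have h3 := ha.side_stop hV hα1 hβ1 hd hf true true
        rw [hfp] at h3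
        have h4 : f (p₀, true) = true := by
          cases h5 : f (p₀, true)
          · rw [h5] at h3; simp at h3
          · rfl
        rw [hco _ _ _ ha h4]
        exact h1 _ ha.start h4
      · exact h1 p hp hfp
    refine hbase ow how ?_ hag
    intro q hq hqα hqβ
    have h1 : S.mate q ∈ S.Crs V α β :=
      ⟨hqβ, fun h => hq ((hV _).1 h), by rw [S.mate_mate]; exact hqα⟩
    have h2 := hno _ h1
    rw [how] at h2
    simpa using h2
  · -- step
    obtain ⟨p, hpA, hmin⟩ := Finset.exists_min_image _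
      (fun p => max (ι (S.mate p)) (ι (S.mate (ex p))) - min (ι (S.mate p)) (ι (S.mate (ex p)))) hA
    rw [Finset.mem_filter] at hpA
    obtain ⟨-, hp, hfp, howp⟩ := hpA
    have harc := hexa p hp
    set p' := ex p with hp'def
    set k := len p with hkdef
    have hmp : S.mate p ∈ α := hp.2.2
    have hp'C : p' ∈ S.Crs V α β := harc.stop
    have hmp' : S.mate p' ∈ α := hp'C.2.2
    have hfp' : f (p', true) = false := by
      rw [harc.side_stop hV hα1 hβ1 hd hf true true, hfp]; rfl
    have hpp' : p ≠ p' := by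
      intro h; rw [← h, hfp] at hfp'; cases hfp'
    have hmpV : S.mate p ∉ V := fun h => hp.2.1 ((hV _).1 h)
    have hmpV' : S.mate p' ∉ V := fun h => hp'C.2.1 ((hV _).1 h)
    have hpos : ∀ e ∈ α, e ∉ V → 0 < ι e := by
      intro e he heV
      rcases Nat.eq_zero_or_pos (ι e) with h | h
      · have := hι e he
        rw [h] at this
        exact absurd hα.base (by rw [show x = e from this]; exact heV)
      · exact h
    have hne : ι (S.mate p) ≠ ι (S.mate p') := by
      intro h
      have h1 := hι _ hmp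
      rw [h, hι _ hmp'] at h1
      exact hpp' (S.mate_inj h1.symm)
    set lo := min (ι (S.mate p)) (ι (S.mate p')) with hlo
    set hi := max (ι (S.mate p)) (ι (S.mate p')) with hhi
    have hlo0 : 0 < lo := lt_min (hpos _ hmp hmpV) (hpos _ hmp' hmpV')
    have hlh : lo < hi := by
      rw [hlo, hhi]
      rcases lt_or_gt_of_ne hne with h | h
      · rw [min_eq_left h.le, max_eq_right h.le]; exact h
      · rw [min_eq_right h.le, max_eq_left h.le]; exact h
    have hhN : hi < N := max_lt (hιN _ hmp) (hιN _ hmp')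
    have hmate : (S.mate p = (S.nxt V)^[lo] x ∧ S.mate p' = (S.nxt V)^[hi] x) ∨
        (S.mate p = (S.nxt V)^[hi] x ∧ S.mate p' = (S.nxt V)^[lo] x) := by
      rcases lt_or_gt_of_ne hne with h | h
      · left
        rw [hlo, hhi, min_eq_left h.le, max_eq_right h.le, hι _ hmp, hι _ hmp']
        exact ⟨rfl, rfl⟩
      · right
        rw [hlo, hhi, min_eq_right h.le, max_eq_left h.le, hι _ hmp, hι _ hmp']
        exact ⟨rfl, rfl⟩
    obtain ⟨F, lI, lB, hI, hF, hFI, hFB, hF0, hF1, hF2, hC1, hC2, hC3, hNC1, hNC2⟩ :=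
      arc_geom hV hα hβ hd hf hJ hNinj (fun e he => ⟨ι e, hιN e he, hι e he⟩) harc hfp hlo0 hlh hhN
        hmate
    have hB := harc.isPath hV hα1 hβ1 hd hf
    set i₀ := (S.nxt V)^[lo] x with hi₀def
    set i₁ := (S.nxt V)^[hi] x with hi₁def
    set I := S.pset V i₀ (hi - lo) with hIdef
    set B := S.pset V p k with hBdef
    have hIα : I ⊆ α := pset_sub hα1 (hα.iter_mem lo)
    have hBβ : B ⊆ β := pset_sub hβ1 hp.1
    -- indices of elements of `I`
    have hIι : ∀ e ∈ α, e ∈ I → lo ≤ ι e ∧ ι e < hi := by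
      rintro e he ⟨l, hl, h⟩
      rw [← Function.iterate_add_apply] at h
      have h1 := hι e he
      rw [h] at h1
      have h2 := hNinj _ _ (by rw [← h]; exact hιN e he) (by omega) h1
      rw [← h] at h2
      omega
    have hxI : x ∉ I := by
      intro h
      have h1 := hIι x hα.mem h
      have h2 := hι x hα.mem
      have h3 := hNinj (ι x) 0 (hιN x hα.mem) hN h2
      omega
    have hfB : ∀ e ∈ B, f (e, true) = true := by
      rintro e ⟨l, hl, rfl⟩
      rw [harc.side hV hα1 hβ1 hd hf hl true true, hfp]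
    have hyB : y ∉ B := fun h => by rw [hfB y h] at hfy; cases hfy
    have hI₂ : S.IsPath Sm₂ I i₀ i₁ (hi - lo) := by
      refine hI.mono hsub fun e he => nxt_eq_of hV hsub hSm₂ hα1 hα₂ (hIα he) ?_
      intro h
      rcases hI.succ he with h1 | h1
      · exact hxI (h ▸ h1)
      · exact hI.stop (by rw [← h1, h]; exact hα.base)
    have hB₂ : S.IsPath Sm₂ B p p' k := by
      refine hB.mono hsub fun e he => nxt_eq_of hV hsub hSm₂ hβ1 hβ₂ (hBβ he) ?_
      intro h
      rcases hB.succ he with h1 | h1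
      · exact hyB (h ▸ h1)
      · exact hB.stop (by rw [← h1, h]; exact hβ.base)
    have hCrsB : ∀ q ∈ S.Crs V α β, q ∈ B → q = p := by
      rintro q hq ⟨l, hl, rfl⟩
      rcases Nat.eq_zero_or_pos l with rfl | h
      · rfl
      · exact absurd hq (harc.free l h hl)
    have hmi : ∀ q, S.mate q = p ∨ S.mate q = p' → q = i₀ ∨ q = i₁ := by
      intro q h
      rcases h with h | h
      · have h1 : q = S.mate p := by rw [← h, S.mate_mate]
        rcases hmate with ⟨h2, h3⟩ | ⟨h2, h3⟩
        · exact Or.inl (h1.trans h2)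
        · exact Or.inr (h1.trans h2)
      · have h1 : q = S.mate p' := by rw [← h, S.mate_mate]
        rcases hmate with ⟨h2, h3⟩ | ⟨h2, h3⟩
        · exact Or.inr (h1.trans h3)
        · exact Or.inl (h1.trans h3)
    -- non-crossing of another arc
    have hNC : ∀ q q' j, S.IsArc V α β q q' j → f (q, true) = true → q ≠ p →
        (S.mate q ∈ I ↔ S.mate q' ∈ I) := by
      intro q q' j ha hfq hqp
      have hq'p : q' ≠ p' := fun h => hqp (IsArc.start_unique hV (h ▸ ha) harc)
      have hfq' : f (q', true) = false := by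
        rw [ha.side_stop hV hα1 hβ1 hd hf true true, hfq]; rfl
      rw [← hNC1 q ha.start hfq hqp, ← hNC2 q' ha.stop hfq' hq'p]
      have hP := ha.isPath hV hα1 hβ1 hd hf
      have hPβ : S.pset V q j ⊆ β := pset_sub hβ1 ha.start.1
      have hout : ∀ e ∈ S.pset V q j, e ∉ I ∪ B := by
        rintro e he (h | h)
        · exact hnα _ (hPβ he) (hIα h)
        · exact hqp (IsArc.disjoint hV harc ha h he).symm
      have hc := hP.side_const hV hF (Or.inr hout) (by
        intro r hr hrP hrq
        have hrβ := hPβ hrP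
        have hrC : r ∉ S.Crs V α β := by
          intro h
          obtain ⟨l, hl, rfl⟩ := hrP
          rcases Nat.eq_zero_or_pos l with rfl | h1
          · exact hrq rfl
          · exact ha.free l h1 hl h
        have hmV : S.mate r ∉ V := fun h => hr ((hV _).1 h)
        have hmα : S.mate r ∉ α := fun h => hrC ⟨hrβ, hr, h⟩
        have hmβ : S.mate r ∉ β := hβ.simple r hrβ
        refine ⟨?_, ?_⟩
        · rintro (h | h)
          exacts [hmα (hIα h), hmβ (hBβ h)]
        · rintro (h | h)
          exacts [hmα ((hα1.straight hmV).2 (hIα h)), hmβ ((hβ1.straight hmV).2 (hBβ h))])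
      rw [hc _ (hP.last_mem hV) true]
    -- other arcs with an end in `I` are below
    have hbelow : ∀ q q' j, S.IsArc V α β q q' j → f (q, true) = true → q ≠ p →
        S.mate q ∈ I → S.mate q' ∈ I → ow q = false := by
      intro q q' j ha hfq hqp h1 h2
      by_contra h3
      have h3' : ow q = true := by simpa using h3
      have h4 := hmin q (by
        rw [Finset.mem_filter]; exact ⟨Finset.mem_univ _, ha.start, hfq, h3'⟩)
      have h5 : ex q = q' := (hexa q ha.start).end_unique ha
      rw [h5] at h4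
      have hqm : S.mate q ∈ α := ha.start.2.2
      have hqm' : S.mate q' ∈ α := ha.stop.2.2
      have h6 := hIι _ hqm h1
      have h7 := hIι _ hqm' h2
      have hq'p : q' ≠ p' := fun h => hqp (IsArc.start_unique hV (h ▸ ha) harc)
      have hfq' : f (q', true) = false := by
        rw [ha.side_stop hV hα1 hβ1 hd hf true true, hfq]; rfl
      have hqp' : q ≠ p' := by intro h; rw [h, hfp'] at hfq; cases hfq
      have hq'p0 : q' ≠ p := by intro h; rw [h, hfp] at hfq'; cases hfq'
      have hne0 : ι (S.mate q) ≠ lo := by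
        intro h
        have h8 := hι _ hqm
        rw [h, ← hi₀def] at h8
        rcases hmate with ⟨h9, h10⟩ | ⟨h9, h10⟩
        · exact hqp (S.mate_inj (h8.symm.trans h9.symm))
        · exact hqp' (S.mate_inj (h8.symm.trans h10.symm))
      have hne1 : ι (S.mate q') ≠ lo := by
        intro h
        have h8 := hι _ hqm'
        rw [h, ← hi₀def] at h8
        rcases hmate with ⟨h9, h10⟩ | ⟨h9, h10⟩
        · exact hq'p0 (S.mate_inj (h8.symm.trans h9.symm))
        · exact hq'p (S.mate_inj (h8.symm.trans h10.symm))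
      have h8 : max (ι (S.mate q)) (ι (S.mate q')) < hi := max_lt h6.2 h7.2
      have h9 : lo < min (ι (S.mate q)) (ι (S.mate q')) :=
        lt_min (lt_of_le_of_ne h6.1 (Ne.symm hne0)) (lt_of_le_of_ne h7.1 (Ne.symm hne1))
      have h10 : min (ι (S.mate q)) (ι (S.mate q')) ≤ max (ι (S.mate q)) (ι (S.mate q')) :=
        min_le_max
      omega
    -- the flipped diagram
    set ow' : ZMod (2 * n) → Bool := fun q =>
      if q = p ∨ q = p' ∨ S.mate q = p ∨ S.mate q = p' then !ow q else ow q with how'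
    have hflip : ∀ q, (q = p ∨ q = p' ∨ S.mate q = p ∨ S.mate q = p') → ow' q = !ow q :=
      fun q h => if_pos h
    have hkeep : ∀ q, ¬ (q = p ∨ q = p' ∨ S.mate q = p ∨ S.mate q = p') → ow' q = ow q :=
      fun q h => if_neg h
    have how'' : ∀ q, ow' (S.mate q) = !ow' q := by
      intro q
      by_cases h : q = p ∨ q = p' ∨ S.mate q = p ∨ S.mate q = p'
      · rw [hflip q h, hflip (S.mate q) (by rw [S.mate_mate]; tauto), how]
      · rw [hkeep q h, hkeep (S.mate q) (by rw [S.mate_mate]; tauto), how]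
    have hcross : ∀ q, (q = p ∨ q = p' ∨ S.mate q = p ∨ S.mate q = p') →
        q ∉ V ∧ ((q ∈ α ∧ S.mate q ∈ β) ∨ (q ∈ β ∧ S.mate q ∈ α)) := by
      rintro q (rfl | rfl | h | h)
      · exact ⟨hp.2.1, Or.inr ⟨hp.1, hp.2.2⟩⟩
      · exact ⟨hp'C.2.1, Or.inr ⟨hp'C.1, hp'C.2.2⟩⟩
      · have h1 : q = S.mate p := by rw [← h, S.mate_mate]
        rw [h, h1]; exact ⟨hmpV, Or.inl ⟨hmp, hp.1⟩⟩
      · have h1 : q = S.mate p' := by rw [← h, S.mate_mate]
        rw [h, h1]; exact ⟨hmpV', Or.inl ⟨hmp', hp'C.1⟩⟩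
    have hag' : ∀ q, (q ∈ V ∨ (¬ (q ∈ α ∧ S.mate q ∈ β) ∧ ¬ (q ∈ β ∧ S.mate q ∈ α))) →
        ow' q = ov q := by
      intro q h
      rw [hkeep q (fun h1 => by have := hcross q h1; tauto)]
      exact hag q h
    have hβkeep : ∀ q ∈ β, q ≠ p → q ≠ p' → ow' q = ow q := by
      intro q hq h1 h2
      apply hkeep
      rintro (h | h | h | h)
      · exact h1 h
      · exact h2 h
      · have : q = S.mate p := by rw [← h, S.mate_mate]
        exact hnα _ hq (this ▸ hmp)
      · have : q = S.mate p' := by rw [← h, S.mate_mate]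
        exact hnα _ hq (this ▸ hmp')
    have howp' : ow p' = true := by rw [hco _ _ _ harc hfp, howp]
    have hco' : ∀ q q' j, S.IsArc V α β q q' j → f (q, true) = true → ow' q' = ow' q := by
      intro q q' j ha hfq
      by_cases hqp : q = p
      · have h1 : q' = p' := by rw [hqp] at ha; exact ha.end_unique harc
        rw [hqp, h1, hflip p (by tauto), hflip p' (by tauto), howp, howp']
      · have hq'p : q' ≠ p' := fun h => hqp (IsArc.start_unique hV (h ▸ ha) harc)
        have hfq' : f (q', true) = false := by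
          rw [ha.side_stop hV hα1 hβ1 hd hf true true, hfq]; rfl
        have hqp' : q ≠ p' := by intro h; rw [h, hfp'] at hfq; cases hfq
        have hq'p0 : q' ≠ p := by intro h; rw [h, hfp] at hfq'; cases hfq'
        rw [hβkeep q ha.start.1 hqp hqp', hβkeep q' ha.stop.1 hq'p0 hq'p]
        exact hco _ _ _ ha hfq
    have hg : S.Good Sm₂ Y ow' := by
      refine ih _ ?_ ow' how'' hag' hco' rfl
      rw [← hc]
      apply Finset.card_lt_card
      rw [Finset.ssubset_iff_of_subset]
      · refine ⟨p, ?_, ?_⟩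
        · rw [Finset.mem_filter]; exact ⟨Finset.mem_univ _, hp, hfp, howp⟩
        · rw [Finset.mem_filter]
          rintro ⟨-, -, -, h⟩
          rw [hflip p (by tauto), howp] at h
          cases h
      · intro q hq
        rw [Finset.mem_filter] at hq ⊢
        obtain ⟨-, h1, h2, h3⟩ := hq
        refine ⟨Finset.mem_univ _, h1, h2, ?_⟩
        by_cases hqp : q = p
        · rw [hqp]; exact howp
        · have hqp' : q ≠ p' := by intro h; rw [h, hfp'] at h2; cases h2
          rwa [hβkeep q h1.1 hqp hqp'] at h3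
    -- the restrictions of `hover`
    have hover' : ∀ q, q ∉ V → (q ∈ α ∨ q ∈ β) → S.mate q ∈ Y → S.mate q ∉ α → S.mate q ∉ β →
        ow' q = true := by
      intro q h1 h2 h3 h4 h5
      rw [hag' q (Or.inr ⟨fun h => h5 h.2, fun h => h4 h.2⟩)]
      exact hover q h1 h2 h3 h4 h5
    have hIx : ∀ q ∈ I, q ≠ x := fun q hq h => hxI (h ▸ hq)
    have hovI : ∀ q, q ∉ Sm₂ → q ∈ I → q ≠ i₀ → S.mate q ∈ Y → ow' q = true := by
      intro q h1 h2 h3 h4
      have hqα : q ∈ α := hIα h2
      have hqV : q ∉ V := fun h => h1 (hα₂ q hqα h (hIx q h2))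
      have hmα : S.mate q ∉ α := hα.simple q hqα
      by_cases hmβ : S.mate q ∈ β
      · have hr : S.mate q ∈ S.Crs V α β :=
          ⟨hmβ, fun h => hqV ((hV _).1 h), by rw [S.mate_mate]; exact hqα⟩
        have hi₁I : q ≠ i₁ := fun h => hC1 (Or.inl (h ▸ h2))
        have hrp : S.mate q ≠ p := fun h => by
          rcases hmi q (Or.inl h) with h5 | h5
          exacts [h3 h5, hi₁I h5]
        have hrp' : S.mate q ≠ p' := fun h => by
          rcases hmi q (Or.inr h) with h5 | h5
          exacts [h3 h5, hi₁I h5]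
        have hlow : ow (S.mate q) = false := by
          cases hfr : f (S.mate q, true)
          · obtain ⟨r₀, j, ha⟩ := exists_arc_back hV hr
            have h5 := ha.side_stop hV hα1 hβ1 hd hf true true
            rw [hfr] at h5
            have h6 : f (r₀, true) = true := by
              cases h7 : f (r₀, true)
              · rw [h7] at h5; simp at h5
              · rfl
            have hr₀p : r₀ ≠ p := by
              intro h
              rw [h] at ha
              exact hrp' (ha.end_unique harc)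
            have h8 : S.mate (S.mate q) ∈ I := by rw [S.mate_mate]; exact h2
            rw [hco _ _ _ ha h6]
            exact hbelow _ _ _ ha h6 hr₀p ((hNC _ _ _ ha h6 hr₀p).2 h8) h8
          · have ha := hexa _ hr
            have h8 : S.mate (S.mate q) ∈ I := by rw [S.mate_mate]; exact h2
            exact hbelow _ _ _ ha hfr hrp h8 ((hNC _ _ _ ha hfr hrp).1 h8)
        have h9 := how'' q
        rw [hβkeep _ hmβ hrp hrp', hlow] at h9
        simpa using h9.symm
      · exact hover' q hqV (Or.inl hqα) h4 hmα hmβ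
    have hovB : ∀ q, q ∉ Sm₂ → q ∈ B → q ≠ p → S.mate q ∈ Y → ow' q = true := by
      intro q h1 h2 h3 h4
      have hqβ : q ∈ β := hBβ h2
      have hqV : q ∉ V := fun h => h1 (hβ₂ q hqβ h (fun h5 => hyB (h5 ▸ h2)))
      have hqC : q ∉ S.Crs V α β := fun h => h3 (hCrsB q h h2)
      exact hover' q hqV (Or.inr hqβ) h4 (fun h => hqC ⟨hqβ, hqV, h⟩) (hβ.simple q hqβ)
    have hsgn : S.toLeft p' = !S.toLeft p := by
      rw [toLeft_of_entrance hα hV hd hf hp, toLeft_of_entrance hα hV hd hf hp'C, hfp, hfp']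
      cases f (x, true) <;> rfl
    refine bigon_flip (ov := ow') (ov' := ow) hSm₂ hY hI₂ hB₂ (hIα.trans hαY) (hBβ.trans hβY)
      hmate hsgn hC1 hC2 hC3 hF hFI hFB hF0 hF1 hF2 hovI hovB how'' how ?_ ?_ howp howp' ?_ hg
    · rw [hflip p (by tauto), howp]; rfl
    · rw [hflip p' (by tauto), howp']; rfl
    · intro q h1 h2 h3 h4
      refine (hkeep q ?_).symm
      rintro (h | h | h | h)
      · exact h3 h
      · exact h4 h
      · rcases hmi q (Or.inl h) with h5 | h5
        exacts [h1 h5, h2 h5]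
      · rcases hmi q (Or.inr h) with h5 | h5
        exacts [h1 h5, h2 h5]

end Pool.Agent.Helper50.UK
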