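import Pool.Agent.Helper50.UK.Lab

set_option autoImplicit false

namespace Pool.Agent.Helper50.UK
namespace Code

variable {n : ℕ} (S : Code n)

/-- `f` is a two-colouring of the faces which changes exactly across the edges in `C`. -/
structure IsSide (C : Set (ZMod (2 * n))) (f : ZMod (2 * n) × Bool → Bool) : Prop where
  face : S.IsFace f
  jump : ∀ e, f (e, true) ≠ f (e, false) ↔ e ∈ C

variable {S}

theorem IsSide.eq_of_notMem {C : Set (ZMod (2 * n))} {f : ZMod (2 * n) × Bool → Bool}
    (hf : S.IsSide C f) {e : ZMod (2 * n)} (he : e ∉ C) (b b' : Bool) : f (e, b) = f (e, b') := by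
  have h : f (e, true) = f (e, false) := by
    by_contra h; exact he ((hf.jump e).1 h)
  cases b <;> cases b' <;> simp [h]

theorem IsSide.not_of_mem {C : Set (ZMod (2 * n))} {f : ZMod (2 * n) × Bool → Bool}
    (hf : S.IsSide C f) {e : ZMod (2 * n)} (he : e ∈ C) (b : Bool) : f (e, b) = !f (e, !b) := by
  have h := (hf.jump e).2 he
  cases b <;> cases h1 : f (e, true) <;> cases h2 : f (e, false) <;> simp_all

/-- Going straight through a passage whose other branch is not in `C`. -/
theorem IsSide.straight {C : Set (ZMod (2 * n))} {f : ZMod (2 * n) × Bool → Bool}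
    (hf : S.IsSide C f) {q : ZMod (2 * n)} (h1 : S.mate q ∉ C) (h2 : S.mate q - 1 ∉ C) (b : Bool) :
    f (q, b) = f (q - 1, b) := by
  have e1 := hf.eq_of_notMem h1 true false
  have e2 := hf.eq_of_notMem h2 true false
  cases hq : S.toLeft q
  · obtain ⟨a1, a2, a3, a4⟩ := IsFace.false_eq S hf.face hq
    cases b <;> simp_all
  · obtain ⟨a1, a2, a3, a4⟩ := IsFace.true_eq S hf.face hq
    cases b <;> simp_all

/-- Turning at a smoothed double point whose other two edges are not in `C`. -/
theorem IsSide.turn {C : Set (ZMod (2 * n))} {f : ZMod (2 * n) × Bool → Bool}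
    (hf : S.IsSide C f) {q : ZMod (2 * n)} (h1 : q ∉ C) (h2 : S.mate q - 1 ∉ C) (b : Bool) :
    f (S.mate q, b) = f (q - 1, b) := by
  have e1 := hf.eq_of_notMem h1 true false
  have e2 := hf.eq_of_notMem h2 true false
  cases hq : S.toLeft q
  · obtain ⟨a1, a2, a3, a4⟩ := IsFace.false_eq S hf.face hq
    cases b <;> simp_all
  · obtain ⟨a1, a2, a3, a4⟩ := IsFace.true_eq S hf.face hq
    cases b <;> simp_all

/-- Turning at a double point along edges which are not in `C`. -/
theorem IsSide.turn' {C : Set (ZMod (2 * n))} {f : ZMod (2 * n) × Bool → Bool}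
    (hf : S.IsSide C f) {q : ZMod (2 * n)} (h1 : q - 1 ∉ C) (h2 : S.mate q ∉ C) (b b' : Bool) :
    f (S.mate q, b) = f (q - 1, b') := by
  rw [hf.eq_of_notMem h2 b (S.toLeft q), hf.eq_of_notMem h1 b' (S.toLeft q)]
  cases hq : S.toLeft q
  · obtain ⟨a1, a2, a3, a4⟩ := IsFace.false_eq S hf.face hq
    exact a4
  · obtain ⟨a1, a2, a3, a4⟩ := IsFace.true_eq S hf.face hq
    exact a1.symm

/-- The side of the edge before a crossing. -/
theorem IsSide.before {C : Set (ZMod (2 * n))} {f : ZMod (2 * n) × Bool → Bool}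
    (hf : S.IsSide C f) {q : ZMod (2 * n)} (h1 : q - 1 ∉ C) (b : Bool) :
    f (q - 1, b) = f (S.mate q, S.toLeft q) := by
  rw [hf.eq_of_notMem h1 b (S.toLeft q)]
  cases hq : S.toLeft q
  · obtain ⟨a1, a2, a3, a4⟩ := IsFace.false_eq S hf.face hq
    exact a4.symm
  · obtain ⟨a1, a2, a3, a4⟩ := IsFace.true_eq S hf.face hq
    exact a1

/-- The side of the edge after a crossing. -/
theorem IsSide.after {C : Set (ZMod (2 * n))} {f : ZMod (2 * n) × Bool → Bool}
    (hf : S.IsSide C f) {q : ZMod (2 * n)} (h1 : q ∉ C) (b : Bool) :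
    f (q, b) = f (S.mate q, !S.toLeft q) := by
  rw [hf.eq_of_notMem h1 b (S.toLeft q)]
  cases hq : S.toLeft q
  · obtain ⟨a1, a2, a3, a4⟩ := IsFace.false_eq S hf.face hq
    exact a2.symm
  · obtain ⟨a1, a2, a3, a4⟩ := IsFace.true_eq S hf.face hq
    exact a2

/-- Twisting the labels on one side of `f`. -/
def tw {G : Type} [Group G] (f : ZMod (2 * n) × Bool → Bool) (u : G)
    (r : ZMod (2 * n) × Bool → G) : ZMod (2 * n) × Bool → G :=
  fun a => if f a then r a * u else r a

theorem tw_face {G : Type} [Group G] {f : ZMod (2 * n) × Bool → Bool} (hf : S.IsFace f) (u : G)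
    {r : ZMod (2 * n) × Bool → G} (hr : S.IsFace r) : S.IsFace (tw f u r) := by
  intro a
  simp only [tw, hf a, hr a]

theorem col_tw_in {G : Type} [Group G] {f : ZMod (2 * n) × Bool → Bool} {u : G}
    {r : ZMod (2 * n) × Bool → G} {e : ZMod (2 * n)} (h1 : f (e, true) = true)
    (h2 : f (e, false) = true) : col (tw f u r) e = u⁻¹ * col r e * u := by
  simp only [col, tw, h1, h2, if_true]
  group

theorem col_tw_out {G : Type} [Group G] {f : ZMod (2 * n) × Bool → Bool} {u : G}
    {r : ZMod (2 * n) × Bool → G} {e : ZMod (2 * n)} (h1 : f (e, true) = false)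
    (h2 : f (e, false) = false) : col (tw f u r) e = col r e := by
  simp [col, tw, h1, h2]

theorem col_tw_left {G : Type} [Group G] {f : ZMod (2 * n) × Bool → Bool} {u : G}
    {r : ZMod (2 * n) × Bool → G} {e : ZMod (2 * n)} (h1 : f (e, true) = true)
    (h2 : f (e, false) = false) : col (tw f u r) e = col r e * u := by
  simp [col, tw, h1, h2, mul_assoc]

theorem col_tw_right {G : Type} [Group G] {f : ZMod (2 * n) × Bool → Bool} {u : G}
    {r : ZMod (2 * n) × Bool → G} {e : ZMod (2 * n)} (h1 : f (e, true) = false)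
    (h2 : f (e, false) = true) : col (tw f u r) e = u⁻¹ * col r e := by
  simp [col, tw, h1, h2, mul_assoc]

/-- Two edges not in `C` on the same side: a colour equality is preserved. -/
theorem col_tw_eq {G : Type} [Group G] {C : Set (ZMod (2 * n))}
    {f : ZMod (2 * n) × Bool → Bool} (hf : S.IsSide C f) {u : G}
    {r : ZMod (2 * n) × Bool → G} {e e' : ZMod (2 * n)} (he : e ∉ C) (he' : e' ∉ C)
    (hs : f (e, true) = f (e', true)) (h : col r e = col r e') :
    col (tw f u r) e = col (tw f u r) e' := by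
  have h1 := hf.eq_of_notMem he true false
  have h2 := hf.eq_of_notMem he' true false
  cases h3 : f (e, true)
  · rw [col_tw_out h3 (by rw [← h1, h3]), col_tw_out (by rw [← hs, h3]) (by rw [← h2, ← hs, h3]), h]
  · rw [col_tw_in h3 (by rw [← h1, h3]), col_tw_in (by rw [← hs, h3]) (by rw [← h2, ← hs, h3]), h]

theorem col_tw_one {G : Type} [Group G] {C : Set (ZMod (2 * n))}
    {f : ZMod (2 * n) × Bool → Bool} (hf : S.IsSide C f) {u : G}
    {r : ZMod (2 * n) × Bool → G} {e : ZMod (2 * n)} (he : e ∉ C) (h : col r e = 1) :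
    col (tw f u r) e = 1 := by
  have h1 := hf.eq_of_notMem he true false
  cases h3 : f (e, true)
  · rw [col_tw_out h3 (by rw [← h1, h3]), h]
  · rw [col_tw_in h3 (by rw [← h1, h3]), h]; group

/-- Colours along a strand crossing a trivial strand. -/
theorem col_straight_of_one {G : Type} [Group G] {r : ZMod (2 * n) × Bool → G} (hr : S.IsFace r)
    {q : ZMod (2 * n)} (h1 : col r (S.mate q) = 1) (h2 : col r (S.mate q - 1) = 1) :
    col r q = col r (q - 1) := by
  have h := S.col_under hr (h1.trans h2.symm)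
  rw [h, h1]
  split_ifs <;> group

end Code
end Pool.Agent.Helper50.UK
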