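import Pool.Agent.Helper50.UK.Side

set_option autoImplicit false

namespace Pool.Agent.Helper50.UK
namespace Code

variable {n : ℕ} {S : Code n}

/-- A simple component of the curve smoothed at `Sm`, starting at the smoothed passage `x`. -/
structure IsLoop (S : Code n) (Sm α : Set (ZMod (2 * n))) (x : ZMod (2 * n)) : Prop where
  closed : S.Closed Sm α
  mem : x ∈ α
  orbit : ∀ e, e ∈ α → ∃ l : ℕ, e = (S.nxt Sm)^[l] x
  simple : ∀ q, q ∈ α → S.mate q ∉ α
  base : x ∈ Sm

theorem IsLoop.iter_mem {Sm α : Set (ZMod (2 * n))} {x : ZMod (2 * n)} (h : S.IsLoop Sm α x)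
    (l : ℕ) : (S.nxt Sm)^[l] x ∈ α := by
  induction l with
  | zero => exact h.mem
  | succ l ih => rw [Function.iterate_succ_apply']; exact (h.closed _).2 ih

/-- On a loop, the left sides lie on one side. -/
theorem IsLoop.left_const {Sm α : Set (ZMod (2 * n))} {x : ZMod (2 * n)} (h : S.IsLoop Sm α x)
    (hSm : S.MC Sm) {f : ZMod (2 * n) × Bool → Bool} (hf : S.IsSide α f) {e : ZMod (2 * n)}
    (he : e ∈ α) : f (e, true) = f (x, true) := by
  obtain ⟨l, rfl⟩ := h.orbit e he
  clear he
  induction l with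
  | zero => rfl
  | succ l ih =>
    rw [← ih]
    set e := (S.nxt Sm)^[l] x with hedef
    have he : e ∈ α := h.iter_mem l
    rw [Function.iterate_succ_apply']
    by_cases hs : e + 1 ∈ Sm
    · rw [S.nxt_pos hs]
      have hm : S.mate (e + 1) ∈ α := (h.closed.turn (q := e + 1) hs).2 (by simpa using he)
      have h1 : e + 1 ∉ α := fun h1 => h.simple _ h1 hm
      have h2 : S.mate (e + 1) - 1 ∉ α := by
        intro h2
        have := (h.closed.turn (q := S.mate (e + 1)) ((hSm _).2 hs)).2 h2
        rw [S.mate_mate] at this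
        exact h1 this
      have := hf.turn h1 h2 true
      simpa using this
    · rw [S.nxt_neg hs]
      have hm : e + 1 ∈ α := (h.closed.straight (q := e + 1) hs).2 (by simpa using he)
      have h1 : S.mate (e + 1) ∉ α := h.simple _ hm
      have h2 : S.mate (e + 1) - 1 ∉ α := by
        intro h2
        exact h1 ((h.closed.straight (q := S.mate (e + 1)) (fun h3 => hs ((hSm _).1 h3))).2 h2)
      have := hf.straight h1 h2 true
      simpa using this

/-- **Top insertion.** -/
theorem top_insert {X α Sm : Set (ZMod (2 * n))} {ov : ZMod (2 * n) → Bool} {x : ZMod (2 * n)}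
    (hSm : S.MC Sm) (hX : S.Closed Sm X) (hα : S.IsLoop Sm α x) (hdisj : Disjoint X α)
    (hx : x - 1 ∈ X) {f : ZMod (2 * n) × Bool → Bool} (hf : S.IsSide α f)
    (hfx : f (x, true) = true)
    (hov : ∀ q, q ∉ Sm → q ∈ α → S.mate q ∈ X → ov q = true) (hov' : ∀ q, ov (S.mate q) = !ov q)
    (hg : S.Good Sm X ov) : S.Good (Sm \ {x, S.mate x}) (X ∪ α) ov := by
  intro G _ r hr
  have hα1 : S.Closed Sm α := hα.closed
  have hnX : ∀ e, e ∈ α → e ∉ X := fun e h1 h2 => Set.disjoint_left.1 hdisj h2 h1
  have hnα : ∀ e, e ∈ X → e ∉ α := fun e h1 h2 => Set.disjoint_left.1 hdisj h1 h2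
  have hxS : x ∈ Sm := hα.base
  have hmx : S.mate x - 1 ∈ α := by
    have := (hα1.turn (q := S.mate x) ((hSm _).2 hxS)).1
    rw [S.mate_mate] at this
    exact this hα.mem
  have hmxX : S.mate x ∈ X := (hX.turn hxS).2 hx
  set y := col r x with hy
  -- the colour is constant on `α`
  have hstep : ∀ e, e ∈ α → e + 1 ≠ S.mate x → col r (S.nxt Sm e) = col r e := by
    intro e he hne
    by_cases hs : e + 1 ∈ Sm
    · rw [S.nxt_pos hs]
      have h1 : e + 1 ∈ Sm \ {x, S.mate x} := by
        refine ⟨hs, ?_⟩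
        rintro (h | h)
        · exact hnα _ hx (by rw [← h]; simpa using he)
        · exact hne h
      have := hr.smooth _ h1
      simpa using this
    · rw [S.nxt_neg hs]
      have hm : e + 1 ∈ α := (hα1.straight (q := e + 1) hs).2 (by simpa using he)
      have h1 : S.mate (e + 1) ∉ α := hα.simple _ hm
      have hs' : S.mate (e + 1) ∉ Sm := fun h3 => hs ((hSm _).1 h3)
      have h2 : S.mate (e + 1) - 1 ∉ α := fun h2 => h1 ((hα1.straight hs').2 h2)
      by_cases h3 : S.mate (e + 1) ∈ X
      · have := hr.cross (e + 1) (fun h => hs h.1) (Or.inr hm) (Or.inl h3) (hov _ hs hm h3)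
        simpa using this
      · have h4 : S.mate (e + 1) - 1 ∉ X := fun h4 => h3 ((hX.straight hs').2 h4)
        have := S.col_straight_of_one hr.face (q := e + 1)
          (hr.off _ (by rintro (h | h); exacts [h3 h, h1 h]))
          (hr.off _ (by rintro (h | h); exacts [h4 h, h2 h]))
        simpa using this
  have hconst : ∀ e, e ∈ α → col r e = y := by
    intro e he
    obtain ⟨l, rfl⟩ := hα.orbit e he
    clear he
    induction l with
    | zero => rfl
    | succ l ih =>
      rw [Function.iterate_succ_apply']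
      by_cases h1 : (S.nxt Sm)^[l] x + 1 = S.mate x
      · rw [S.nxt_pos (by rw [h1]; exact (hSm _).2 hxS), h1, S.mate_mate]
      · rw [hstep _ (hα.iter_mem l) h1, ih]
  -- the colours at the attaching point
  have hxn : x ∉ Sm \ {x, S.mate x} := fun h => h.2 (Or.inl rfl)
  have hmn : S.mate x ∉ Sm \ {x, S.mate x} := fun h => h.2 (Or.inr rfl)
  have hat : col r (x - 1) = y ∧ col r (S.mate x) = y := by
    cases h : ov x
    · have h1 := hr.cross (S.mate x) hmn (Or.inl hmxX) (Or.inr (by rw [S.mate_mate]; exact hα.mem))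
        (by rw [hov', h]; rfl)
      have h2 : col r (S.mate x) = y := by rw [h1, hconst _ hmx]
      have h3 := S.col_under hr.face h1
      rw [← hy, h2] at h3
      refine ⟨?_, h2⟩
      split_ifs at h3
      · have h4 := congrArg (fun z => y⁻¹ * z * y) h3
        simp only [inv_mul_cancel, one_mul] at h4
        rw [h4]; group
      · have h4 := congrArg (fun z => y * z * y⁻¹) h3
        simp only [mul_inv_cancel_right] at h4
        rw [h4]; group
    · have h1 := hr.cross x hxn (Or.inr hα.mem) (Or.inl hmxX) h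
      have h0 : col r (x - 1) = y := by rw [← h1]
      have h3 := S.col_under hr.face (q := S.mate x) (by rw [S.mate_mate]; exact h1)
      rw [S.mate_mate, ← hy, hconst _ hmx] at h3
      refine ⟨h0, ?_⟩
      rw [h3]
      split_ifs <;> group
  -- twist
  have hin : ∀ e, e ∈ α → f (e, true) = true := fun e he => by rw [hα.left_const hSm hf he, hfx]
  have hin' : ∀ e, e ∈ α → f (e, false) = false := fun e he => by
    have := hf.not_of_mem he false
    rw [this]; simp [hin e he]
  have hcα : ∀ e, e ∈ α → col (tw f y⁻¹ r) e = 1 := by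
    intro e he
    rw [col_tw_left (hin e he) (hin' e he), hconst e he, mul_inv_cancel]
  have hcy : ∀ e, e ∉ α → col r e = y → col (tw f y⁻¹ r) e = y := by
    intro e he h
    have h1 := hf.eq_of_notMem he true false
    cases h3 : f (e, true)
    · rw [col_tw_out h3 (by rw [← h1, h3]), h]
    · rw [col_tw_in h3 (by rw [← h1, h3]), h]; group
  have hlab : S.IsLab Sm X ov (tw f y⁻¹ r) := by
    refine ⟨tw_face hf.face _ hr.face, ?_, ?_, ?_⟩
    · intro e he
      by_cases h1 : e ∈ α
      · exact hcα e h1
      · exact col_tw_one hf h1 (hr.off e (by rintro (h | h); exacts [he h, h1 h]))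
    · intro q hq h1 h2 h3
      have h4 : q - 1 ∈ X := (hX.straight hq).1 h1
      have h5 : S.mate q - 1 ∈ X := (hX.straight (fun h => hq ((hSm _).1 h))).1 h2
      exact col_tw_eq hf (hnα _ h1) (hnα _ h4) (hf.straight (hnα _ h2) (hnα _ h5) true)
        (hr.cross q (fun h => hq h.1) (Or.inl h1) (Or.inl h2) h3)
    · intro q hq
      by_cases hqx : q = x ∨ q = S.mate x
      · rcases hqx with rfl | rfl
        · rw [hcy _ (hnα _ hmxX) hat.2, hcy _ (hnα _ hx) hat.1]
        · rw [S.mate_mate, hcα _ hα.mem, hcα _ hmx]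
      · have h0 : q ∈ Sm \ {x, S.mate x} := ⟨hq, by simpa using hqx⟩
        have hr0 := hr.smooth q h0
        by_cases h1 : q - 1 ∈ α
        · rw [hcα _ h1, hcα _ ((hα1.turn hq).2 h1)]
        · have h2 : S.mate q ∉ α := fun h2 => h1 ((hα1.turn hq).1 h2)
          exact col_tw_eq hf h2 h1 (hf.turn' h1 h2 true true) hr0
  have hfin : ∀ e, e ∈ X ∪ α → col r e = y := by
    rintro e (he | he)
    · have h1 := hg G _ hlab e he _ hx
      rw [hcy _ (hnα _ hx) hat.1] at h1
      have h2 := hf.eq_of_notMem (hnα _ he) true false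
      cases h3 : f (e, true)
      · rwa [col_tw_out h3 (by rw [← h2, h3])] at h1
      · rw [col_tw_in h3 (by rw [← h2, h3])] at h1
        have h4 := congrArg (fun z => y⁻¹ * z * y) h1
        rw [show y⁻¹ * ((y⁻¹)⁻¹ * col r e * y⁻¹) * y = col r e by group] at h4
        rw [h4]; group
    · exact hconst e he
  intro e he e' he'
  rw [hfin e he, hfin e' he']

end Code
end Pool.Agent.Helper50.UK
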